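import Pool.Agent.Helper91_FGT.FOE
import Pool.Agent.Helper92_FGT.INV
import Pool.Agent.Helper44_FGT.FOS
import Pool.Agent.Helper73_FGT.FOQ
import Pool.Agent.Helper60_FGT.RAL
import Pool.Agent.Helper60_FGT.EMB
import Pool.Agent.Helper49_FGT.RDL
import Pool.Agent.Helper94_FGT.EXT
import Pool.Agent.Helper20_FGT.MIX
import Pool.Agent.Helper47_FGT.RES
import Pool.Agent.Helper40_FGT.MTP
import Pool.Agent.Helper8_FGT.GAP
import Pool.Agent.Helper8_FGT.TAV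
import Pool.Agent.Helper16_FGT.DNS
import Pool.Agent.Helper10_FGT.KRA
import Pool.Agent.Helper75_FGT.PSD
import Pool.Agent.Helper64_FGT.CLS
import Pool.Agent.Helper86_FGT.TBD
import Pool.Agent.Helper15_FGT.MHD
import Pool.Agent.Helper77_FGT.LIN
import Pool.Agent.Helper25_FGT.STB
import Pool.Agent.Helper26_FGT.KEX
import Pool.Agent.Helper90_FGT.EQV
import Pool.Agent.Helper52_FGT.SWP
import Pool.Agent.Helper41_FGT.TYF
import Pool.Agent.Helper28_FGT.GNS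
import Pool.Agent.Helper28_FGT.OPC
import Pool.Agent.Helper51_FGT.FAM
import Pool.Agent.Helper82_FGT.SEP
import Pool.Agent.Helper23_FGT.TYI
import Pool.Agent.Helper32_FGT.ORB
import Pool.Agent.Helper29_FGT.MPL
import Pool.Agent.Helper32_FGT.EXI
import Pool.Agent.Helper29_FGT.ERG
import Pool.Agent.Helper4_FGT.CAE
import Pool.Agent.Helper7_FGT.CMB
import Pool.Agent.Helper48_FGT.THA
import Pool.Agent.Helper47_FGT.INM
import Pool.Agent.Helper73_FGT.FIN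

/-!
FGT: assembly of the rows.
-/

namespace Pool.Agent.FGT.All

universe u v

theorem pFOE : FoeStmt.{u} := Pool.Agent.FGT.H91.foe

theorem pINV : InvStmt.{u} := Pool.Agent.FGT.H92.inv

theorem pFOS : FosStmt.{u} := Pool.Agent.FGT.H44.fos

theorem pFOQ : FoqStmt.{u} := Pool.Agent.FGT.H73.foq

theorem pRAL : RalStmt.{u} := Pool.Agent.FGT.H60.ral

theorem pEMB : EmbStmt.{u, v} := Pool.Agent.FGT.H60.emb

theorem pRDL : RdlStmt.{u, v} := Pool.Agent.FGT.H49.rdl pINV pFOS pFOQ pRAL pEMB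

theorem pEXT : ExtStmt.{v} := Pool.Agent.FGT.H94.ext

theorem pMIX : MixStmt.{u, v} := Pool.Agent.FGT.H20.mix

theorem pRES : ResStmt.{u, v} := Pool.Agent.FGT.H47.res pMIX

theorem pMTP : MtpStmt.{u, v} := Pool.Agent.FGT.H40.mtp

theorem pGAP : GapStmt.{u} := Pool.Agent.FGT.H8.gap

theorem pTAV : TavStmt.{u, v} := Pool.Agent.FGT.H8.tav pEXT pMIX pMTP pGAP

theorem pDNS : DnsStmt.{u} := Pool.Agent.FGT.H16.dns

theorem pKRA : KraStmt.{u} := Pool.Agent.FGT.H10.kra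

theorem pPSD : PsdStmt.{u} := Pool.Agent.FGT.H75.psd

theorem pCLS : ClsStmt.{u} := Pool.Agent.FGT.H64.cls

theorem pTBD : TbdStmt.{u} := Pool.Agent.FGT.H86.tbd pDNS pKRA pPSD pCLS

theorem pMHD : MhdStmt.{u} := Pool.Agent.FGT.H15.mhd

theorem pLIN : LinStmt.{u} := Pool.Agent.FGT.H77.lin pMHD

theorem pSTB : StbStmt.{u} := Pool.Agent.FGT.H25.stb pLIN

theorem pKEX : KexStmt.{u} := Pool.Agent.FGT.H26.kex pKRA

theorem pEQV : EqvStmt.{u} := Pool.Agent.FGT.H90.eqv pKRA pPSD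

theorem pSWP : SwpStmt.{u} := Pool.Agent.FGT.H52.swp

theorem pTYF : TyfStmt.{u} := Pool.Agent.FGT.H41.tyf pDNS pSTB pKRA pKEX pEQV pSWP

theorem pGNS : GnsStmt.{u} := Pool.Agent.FGT.H28.gns

theorem pOPC : OpcStmt := Pool.Agent.FGT.H28.opc

theorem pFAM : FamStmt.{u} := Pool.Agent.FGT.H51.fam pGNS pOPC

theorem pSEP : SepStmt.{u} := Pool.Agent.FGT.H82.sep pDNS pSTB pKRA pPSD pFAM

theorem pTYI : TyiStmt.{u} := Pool.Agent.FGT.H23.tyi pLIN pDNS pKRA pEQV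

theorem pORB : OrbStmt.{u} := Pool.Agent.FGT.H32.orb pTBD pTYF pSEP pTYI

theorem pMPL : MplStmt.{u, v} := Pool.Agent.FGT.H29.mpl

theorem pEXI : ExiStmt := Pool.Agent.FGT.H32.exi

theorem pERG : ErgStmt.{v} := Pool.Agent.FGT.H29.erg

theorem pCAE : CaeStmt.{u, v} := Pool.Agent.FGT.H4.cae pEXI pERG pMIX

theorem pCMB : CmbStmt.{u, v} := Pool.Agent.FGT.H7.cmb

theorem pTHA : ThaStmt.{u, v} := Pool.Agent.FGT.H48.tha pORB pMIX pMPL pCAE pCMB

theorem pINM : InmStmt.{u, v} := Pool.Agent.FGT.H47.inm pEXT pRES pTAV pTHA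

theorem pFIN : FinStmt.{u, v} := Pool.Agent.FGT.H73.fin pFOE pRDL pINM

end Pool.Agent.FGT.All
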