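import Pool.Agent.Helper67_CIP.HalfFull

/-!
Full groups of minimal homeomorphisms: definitions and basic lemmas (windows, density means,
actions on the integers with bounded displacement).
-/

namespace Pool.Agent.FGT

open Filter Topology

set_option linter.unusedSectionVars false

/-! ### groups -/

/-- every element has finite order -/
def Tors (G : Type*) [Group G] : Prop := ∀ g : G, IsOfFinOrder g

/-- centralizers of non-trivial elements are finite -/
def FCen (G : Type*) [Group G] : Prop := ∀ g : G, g ≠ 1 → {h : G | h * g = g * h}.Finite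

/-- no infinite locally finite subgroup -/
def NLFS (G : Type*) [Group G] : Prop :=
  ∀ K : Subgroup G, (∀ H : Subgroup G, H ≤ K → H.FG → (H : Set G).Finite) → (K : Set G).Finite

/-- no involutions -/
def NInv (G : Type*) [Group G] : Prop := ∀ g : G, g * g = 1 → g = 1

/-- Foelner condition -/
def Fol (G : Type*) [Group G] : Prop :=
  ∀ S : Finset G, ∀ ε : ℝ, 0 < ε → ∃ F : Finset G, F.Nonempty ∧
    ∀ s ∈ S, ({g : G | g ∈ F ∧ s * g ∉ F}.ncard : ℝ) ≤ ε * F.card

/-- the groups to which everything is reduced -/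
structure Good (L : Type*) [Group L] : Prop where
  inf : Infinite L
  fg : Group.FG L
  tors : Tors L
  fcen : FCen L
  nlfs : NLFS L
  ninv : NInv L

/-! ### actions on the integers -/

section Act

variable {L : Type*} [Group L]

/-- the orbit of `j` under the subgroup `K` -/
def orb (α : L →* Equiv.Perm ℤ) (K : Subgroup L) (j : ℤ) : Set ℤ := {i | ∃ g ∈ K, α g j = i}

/-- the points with infinite `K`-orbit -/
def II (α : L →* Equiv.Perm ℤ) (K : Subgroup L) : Set ℤ := {j | (orb α K j).Infinite}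

/-- the points fixed by `K` -/
def Fx (α : L →* Equiv.Perm ℤ) (K : Subgroup L) : Set ℤ := {j | ∀ g ∈ K, α g j = j}

/-- some element fixes `y` and maps `z` to `z'` -/
def Lk (α : L →* Equiv.Perm ℤ) (y z z' : ℤ) : Prop := ∃ h : L, α h y = y ∧ α h z = z'

/-- bounded displacement -/
def BDp (α : L →* Equiv.Perm ℤ) : Prop := ∀ g : L, ∃ R : ℕ, ∀ j : ℤ, |α g j - j| ≤ R

/-- every infinite f.g. subgroup has an infinite orbit meeting the orbit of `z` under every
subgroup of finite index -/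
def NS (α : L →* Equiv.Perm ℤ) (z : ℤ) : Prop :=
  ∀ K : Subgroup L, K.FG → (K : Set L).Infinite → ∀ N : Subgroup L, N.FiniteIndex →
    ∃ g ∈ N, (orb α K (α g z)).Infinite

end Act

/-! ### means -/

/-- the average over the window `[-M, M]` -/
noncomputable def av (f : ℤ → ℝ) (M : ℕ) : ℝ :=
  (∑ j ∈ Finset.Icc (-(M : ℤ)) M, f j) / (2 * M + 1)

/-- bounded functions -/
def Bdd {ι : Type*} (f : ι → ℝ) : Prop := ∃ C : ℝ, ∀ j, |f j| ≤ C

/-- the indicator function of `B` -/
noncomputable def ind {ι : Type*} (B : Set ι) : ι → ℝ := B.indicator fun _ => 1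

/-- `I` is a limit of window averages -/
def IsMean (I : (ℤ → ℝ) → ℝ) : Prop :=
  ∀ F : Finset (ℤ → ℝ), (∀ f ∈ F, Bdd f) → ∀ ε : ℝ, 0 < ε → ∀ N : ℕ, ∃ M, N ≤ M ∧
    ∀ f ∈ F, |av f M - I f| < ε

/-- the mean of a set -/
noncomputable def ms (I : (ℤ → ℝ) → ℝ) (B : Set ℤ) : ℝ := I (ind B)

section Kernel

variable {L : Type*} [Group L]

/-- the supremum of the masses of the `II α K`, `K` f.g. fixing `z` -/
noncomputable def DD (α : L →* Equiv.Perm ℤ) (I : (ℤ → ℝ) → ℝ) (z : ℤ) : ℝ :=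
  sSup {r | ∃ K : Subgroup L, K.FG ∧ z ∈ Fx α K ∧ r = ms I (II α K)}

/-- the kernel -/
noncomputable def kk (α : L →* Equiv.Perm ℤ) (I : (ℤ → ℝ) → ℝ) (z z' : ℤ) : ℝ :=
  sSup {r | ∃ K K' : Subgroup L, K.FG ∧ K'.FG ∧ z ∈ Fx α K ∧ z' ∈ Fx α K' ∧
    r = ms I {y | y ∈ II α K ∧ y ∈ II α K' ∧ Lk α y z z'}}

/-- finitely many fixed point sets of f.g. subgroups `K` with nearly maximal `II α K` cover the
orbit of `z` up to small mass -/
def COV (α : L →* Equiv.Perm ℤ) (I : (ℤ → ℝ) → ℝ) (z : ℤ) : Prop :=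
  ∀ ε : ℝ, 0 < ε → ∀ η : ℝ, 0 < η → ∃ F : Finset (Subgroup L),
    (∀ K ∈ F, K.FG ∧ DD α I z - ε ≤ ms I (II α K)) ∧
    ms I {j | (∃ g : L, α g z = j) ∧ ∀ K ∈ F, j ∉ Fx α K} ≤ η

end Kernel

/-! ### basic lemmas: bounded functions -/

theorem Bdd.add {ι : Type*} {f g : ι → ℝ} (hf : Bdd f) (hg : Bdd g) : Bdd (f + g) := by
  obtain ⟨C, hC⟩ := hf
  obtain ⟨D, hD⟩ := hg
  exact ⟨C + D, fun j => (abs_add_le _ _).trans (add_le_add (hC j) (hD j))⟩

theorem Bdd.smul {ι : Type*} {f : ι → ℝ} (c : ℝ) (hf : Bdd f) : Bdd (c • f) := by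
  obtain ⟨C, hC⟩ := hf
  refine ⟨|c| * C, fun j => ?_⟩
  rw [Pi.smul_apply, smul_eq_mul, abs_mul]
  exact mul_le_mul_of_nonneg_left (hC j) (abs_nonneg _)

theorem Bdd.sub {ι : Type*} {f g : ι → ℝ} (hf : Bdd f) (hg : Bdd g) : Bdd (f - g) := by
  obtain ⟨C, hC⟩ := hf
  obtain ⟨D, hD⟩ := hg
  refine ⟨C + D, fun j => ?_⟩
  rw [Pi.sub_apply]
  exact (abs_sub _ _).trans (add_le_add (hC j) (hD j))

theorem Bdd.mul {ι : Type*} {f g : ι → ℝ} (hf : Bdd f) (hg : Bdd g) : Bdd (f * g) := by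
  obtain ⟨C, hC⟩ := hf
  obtain ⟨D, hD⟩ := hg
  refine ⟨C * D, fun j => ?_⟩
  rw [Pi.mul_apply, abs_mul]
  exact mul_le_mul (hC j) (hD j) (abs_nonneg _) ((abs_nonneg _).trans (hC j))

theorem Bdd.comp {ι κ : Type*} {f : ι → ℝ} (hf : Bdd f) (φ : κ → ι) : Bdd (f ∘ φ) := by
  obtain ⟨C, hC⟩ := hf
  exact ⟨C, fun j => hC _⟩

theorem Bdd.const {ι : Type*} (c : ℝ) : Bdd (fun _ : ι => c) := ⟨|c|, fun _ => le_rfl⟩

theorem Bdd.zero {ι : Type*} : Bdd (0 : ι → ℝ) := ⟨0, fun _ => by simp⟩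

theorem ind_le_one {ι : Type*} (B : Set ι) (j : ι) : ind B j ≤ 1 := by
  unfold ind
  by_cases h : j ∈ B
  · simp [h]
  · simp [h]

theorem ind_nonneg {ι : Type*} (B : Set ι) (j : ι) : 0 ≤ ind B j := by
  unfold ind
  by_cases h : j ∈ B
  · simp [h]
  · simp [h]

theorem ind_of_mem {ι : Type*} {B : Set ι} {j : ι} (h : j ∈ B) : ind B j = 1 := by
  unfold ind
  simp [h]

theorem ind_of_not_mem {ι : Type*} {B : Set ι} {j : ι} (h : j ∉ B) : ind B j = 0 := by
  unfold ind
  simp [h]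

theorem Bdd.ind {ι : Type*} (B : Set ι) : Bdd (ind B) := by
  refine ⟨1, fun j => ?_⟩
  rw [abs_of_nonneg (ind_nonneg B j)]
  exact ind_le_one B j

theorem Bdd.sum {ι κ : Type*} (s : Finset κ) (F : κ → ι → ℝ) (h : ∀ i ∈ s, Bdd (F i)) :
    Bdd (∑ i ∈ s, F i) := by
  classical
  induction s using Finset.induction_on with
  | empty => simpa using Bdd.zero
  | insert a s ha ih =>
    rw [Finset.sum_insert ha]
    exact (h a (Finset.mem_insert_self a s)).add
      (ih fun i hi => h i (Finset.mem_insert_of_mem hi))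

/-! ### window averages -/

theorem win_card (M : ℕ) : ((Finset.Icc (-(M : ℤ)) M).card : ℝ) = 2 * M + 1 := by
  rw [Int.card_Icc]
  have h1 : ((M : ℤ) + 1 - -(M : ℤ)).toNat = 2 * M + 1 := by omega
  rw [h1]
  push_cast
  ring

theorem win_pos (M : ℕ) : (0 : ℝ) < 2 * M + 1 := by positivity

theorem av_add (f g : ℤ → ℝ) (M : ℕ) : av (f + g) M = av f M + av g M := by
  unfold av
  rw [← add_div, ← Finset.sum_add_distrib]
  rfl

theorem av_smul (c : ℝ) (f : ℤ → ℝ) (M : ℕ) : av (c • f) M = c * av f M := by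
  unfold av
  rw [← mul_div_assoc, Finset.mul_sum]
  rfl

theorem av_mono {f g : ℤ → ℝ} (h : ∀ j, f j ≤ g j) (M : ℕ) : av f M ≤ av g M := by
  unfold av
  exact div_le_div_of_nonneg_right (Finset.sum_le_sum fun j _ => h j) (win_pos M).le

theorem av_const (c : ℝ) (M : ℕ) : av (fun _ => c) M = c := by
  unfold av
  rw [Finset.sum_const, nsmul_eq_mul, win_card]
  field_simp

theorem av_abs_le {f : ℤ → ℝ} {C : ℝ} (h : ∀ j, |f j| ≤ C) (M : ℕ) : |av f M| ≤ C := by
  rw [abs_le]
  constructor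
  · have h1 := av_mono (f := fun _ => -C) (g := f) (fun j => (abs_le.mp (h j)).1) M
    rwa [av_const] at h1
  · have h1 := av_mono (f := f) (g := fun _ => C) (fun j => (abs_le.mp (h j)).2) M
    rwa [av_const] at h1

theorem av_ind (B : Set ℤ) (M : ℕ) :
    av (ind B) M = ((B ∩ Set.Icc (-(M : ℤ)) M).ncard : ℝ) / (2 * M + 1) := by
  classical
  unfold av
  congr 1
  have h1 : (B ∩ Set.Icc (-(M : ℤ)) M) =
      ((Finset.Icc (-(M : ℤ)) M).filter (· ∈ B) : Finset ℤ) := by
    ext j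
    simp only [Set.mem_inter_iff, Set.mem_Icc, Finset.coe_filter, Finset.mem_Icc, Set.mem_setOf_eq]
    exact and_comm
  rw [h1, Set.ncard_coe_finset, Finset.card_filter]
  push_cast
  apply Finset.sum_congr rfl
  intro j _
  by_cases hj : j ∈ B
  · simp [ind_of_mem hj, hj]
  · simp [ind_of_not_mem hj, hj]

/-! ### means -/

namespace IsMean

variable {I : (ℤ → ℝ) → ℝ} (hI : IsMean I)

include hI

theorem add {f g : ℤ → ℝ} (hf : Bdd f) (hg : Bdd g) : I (f + g) = I f + I g := by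
  classical
  by_contra hne
  have hpos : 0 < |I (f + g) - (I f + I g)| := abs_pos.mpr (sub_ne_zero.mpr hne)
  obtain ⟨M, -, hM⟩ := hI {f, g, f + g} (by
    intro x hx
    simp only [Finset.mem_insert, Finset.mem_singleton] at hx
    rcases hx with rfl | rfl | rfl
    · exact hf
    · exact hg
    · exact hf.add hg) (|I (f + g) - (I f + I g)| / 4) (by positivity) 0
  have h1 := hM f (by simp)
  have h2 := hM g (by simp)
  have h3 := hM (f + g) (by simp)
  rw [av_add] at h3
  have h4 : |I (f + g) - (I f + I g)| ≤ |av f M - I f| + |av g M - I g| +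
      |av f M + av g M - I (f + g)| := by
    have e : I (f + g) - (I f + I g) = (av f M - I f) + (av g M - I g) -
        (av f M + av g M - I (f + g)) := by ring
    rw [e]
    exact (abs_sub _ _).trans (add_le_add (abs_add_le _ _) le_rfl)
  linarith

theorem smul (c : ℝ) {f : ℤ → ℝ} (hf : Bdd f) : I (c • f) = c * I f := by
  classical
  by_contra hne
  have hpos : 0 < |I (c • f) - c * I f| := abs_pos.mpr (sub_ne_zero.mpr hne)
  obtain ⟨M, -, hM⟩ := hI {f, c • f} (by
    intro x hx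
    simp only [Finset.mem_insert, Finset.mem_singleton] at hx
    rcases hx with rfl | rfl
    · exact hf
    · exact hf.smul c) (|I (c • f) - c * I f| / (2 * (|c| + 1))) (by positivity) 0
  have h1 := hM f (by simp)
  have h2 := hM (c • f) (by simp)
  rw [av_smul] at h2
  have h4 : |I (c • f) - c * I f| ≤ |c| * |av f M - I f| + |c * av f M - I (c • f)| := by
    have e : I (c • f) - c * I f = c * (av f M - I f) - (c * av f M - I (c • f)) := by ring
    rw [e, ← abs_mul]
    exact abs_sub _ _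
  have hc : 0 < |c| + 1 := by positivity
  set t := |I (c • f) - c * I f| with ht
  have h5 : |c| * |av f M - I f| ≤ |c| * (t / (2 * (|c| + 1))) :=
    mul_le_mul_of_nonneg_left h1.le (abs_nonneg _)
  have h6 : |c| * (t / (2 * (|c| + 1))) + t / (2 * (|c| + 1)) = t / 2 := by
    field_simp
  linarith

theorem mono {f g : ℤ → ℝ} (hf : Bdd f) (hg : Bdd g) (h : ∀ j, f j ≤ g j) : I f ≤ I g := by
  classical
  by_contra hne
  push Not at hne
  obtain ⟨M, -, hM⟩ := hI {f, g} (by
    intro x hx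
    simp only [Finset.mem_insert, Finset.mem_singleton] at hx
    rcases hx with rfl | rfl
    · exact hf
    · exact hg) ((I f - I g) / 2) (by linarith) 0
  have h1 := abs_lt.mp (hM f (by simp))
  have h2 := abs_lt.mp (hM g (by simp))
  have h3 := av_mono h M
  linarith [h1.1, h2.2]

theorem const (c : ℝ) : I (fun _ => c) = c := by
  by_contra hne
  have hpos : 0 < |c - I (fun _ => c)| := abs_pos.mpr (sub_ne_zero.mpr (Ne.symm hne))
  obtain ⟨M, -, hM⟩ := hI {fun _ => c} (by
    intro x hx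
    rw [Finset.mem_singleton] at hx
    rw [hx]
    exact Bdd.const c) _ hpos 0
  have h1 := hM _ (Finset.mem_singleton_self _)
  rw [av_const] at h1
  exact lt_irrefl _ h1

theorem sub {f g : ℤ → ℝ} (hf : Bdd f) (hg : Bdd g) : I (f - g) = I f - I g := by
  have h1 : f - g = f + (-1 : ℝ) • g := by
    funext j
    simp [sub_eq_add_neg]
  rw [h1, hI.add hf (hg.smul _), hI.smul _ hg]
  ring

theorem zero : I 0 = 0 := hI.const 0

theorem sum {κ : Type*} (s : Finset κ) (F : κ → ℤ → ℝ) (h : ∀ i ∈ s, Bdd (F i)) :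
    I (∑ i ∈ s, F i) = ∑ i ∈ s, I (F i) := by
  classical
  induction s using Finset.induction_on with
  | empty => simpa using hI.zero
  | insert a s ha ih =>
    rw [Finset.sum_insert ha, Finset.sum_insert ha,
      hI.add (h a (Finset.mem_insert_self a s)) (Bdd.sum s F fun i hi =>
        h i (Finset.mem_insert_of_mem hi)), ih fun i hi => h i (Finset.mem_insert_of_mem hi)]

theorem nonneg {f : ℤ → ℝ} (hf : Bdd f) (h : ∀ j, 0 ≤ f j) : 0 ≤ I f := by
  have h1 := hI.mono (Bdd.const 0) hf h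
  rwa [hI.const] at h1

theorem abs_le {f : ℤ → ℝ} {C : ℝ} (h : ∀ j, |f j| ≤ C) : |I f| ≤ C := by
  rw [_root_.abs_le]
  constructor
  · have h1 := hI.mono (Bdd.const (-C)) ⟨C, h⟩ fun j => (_root_.abs_le.mp (h j)).1
    rwa [hI.const] at h1
  · have h1 := hI.mono ⟨C, h⟩ (Bdd.const C) fun j => (_root_.abs_le.mp (h j)).2
    rwa [hI.const] at h1

/-! sets -/

theorem ms_nonneg (B : Set ℤ) : 0 ≤ ms I B := hI.nonneg (Bdd.ind B) (ind_nonneg B)

theorem ms_le_one (B : Set ℤ) : ms I B ≤ 1 := by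
  have h1 := hI.mono (Bdd.ind B) (Bdd.const 1) (ind_le_one B)
  rwa [hI.const] at h1

theorem ms_univ : ms I Set.univ = 1 := by
  have h1 : ind (Set.univ : Set ℤ) = fun _ => (1 : ℝ) := by
    funext j
    exact ind_of_mem (Set.mem_univ j)
  unfold ms
  rw [h1, hI.const]

theorem ms_empty : ms I ∅ = 0 := by
  have h1 : ind (∅ : Set ℤ) = 0 := by
    funext j
    exact ind_of_not_mem (Set.notMem_empty j)
  unfold ms
  rw [h1, hI.zero]

theorem ms_mono {A B : Set ℤ} (h : A ⊆ B) : ms I A ≤ ms I B := by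
  apply hI.mono (Bdd.ind A) (Bdd.ind B)
  intro j
  by_cases hj : j ∈ A
  · rw [ind_of_mem hj, ind_of_mem (h hj)]
  · rw [ind_of_not_mem hj]
    exact ind_nonneg B j

theorem ms_union {A B : Set ℤ} (h : Disjoint A B) : ms I (A ∪ B) = ms I A + ms I B := by
  unfold ms
  rw [← hI.add (Bdd.ind A) (Bdd.ind B)]
  congr 1
  funext j
  rw [Pi.add_apply]
  by_cases hA : j ∈ A
  · have hB : j ∉ B := fun hB => Set.disjoint_left.mp h hA hB
    rw [ind_of_mem (Set.mem_union_left _ hA), ind_of_mem hA, ind_of_not_mem hB, add_zero]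
  · by_cases hB : j ∈ B
    · rw [ind_of_mem (Set.mem_union_right _ hB), ind_of_mem hB, ind_of_not_mem hA, zero_add]
    · rw [ind_of_not_mem hA, ind_of_not_mem hB, ind_of_not_mem, add_zero]
      rintro (h | h)
      · exact hA h
      · exact hB h

theorem ms_union_le (A B : Set ℤ) : ms I (A ∪ B) ≤ ms I A + ms I B := by
  have h1 : A ∪ B = A ∪ (B \ A) := by
    ext j
    simp
  rw [h1, hI.ms_union Set.disjoint_sdiff_right]
  have h2 : ms I (B \ A) ≤ ms I B := hI.ms_mono Set.sdiff_subset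
  linarith

theorem ms_inter_add_diff (A B : Set ℤ) : ms I (A ∩ B) + ms I (A \ B) = ms I A := by
  rw [← hI.ms_union (Set.disjoint_left.mpr fun j h1 h2 => h2.2 h1.2), Set.inter_union_sdiff]

theorem ms_biUnion_le {κ : Type*} (s : Finset κ) (B : κ → Set ℤ) :
    ms I (⋃ i ∈ s, B i) ≤ ∑ i ∈ s, ms I (B i) := by
  classical
  induction s using Finset.induction_on with
  | empty =>
    simp only [Finset.notMem_empty, Set.iUnion_of_empty, Set.iUnion_empty, Finset.sum_empty]
    exact (hI.ms_empty).le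
  | insert a s ha ih =>
    rw [Finset.set_biUnion_insert, Finset.sum_insert ha]
    exact (hI.ms_union_le _ _).trans (add_le_add le_rfl ih)

theorem ms_biUnion {κ : Type*} (s : Finset κ) (B : κ → Set ℤ)
    (h : ∀ i ∈ s, ∀ j ∈ s, i ≠ j → Disjoint (B i) (B j)) :
    ms I (⋃ i ∈ s, B i) = ∑ i ∈ s, ms I (B i) := by
  classical
  induction s using Finset.induction_on with
  | empty =>
    simp only [Finset.notMem_empty, Set.iUnion_of_empty, Set.iUnion_empty, Finset.sum_empty]
    exact hI.ms_empty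
  | insert a s ha ih =>
    rw [Finset.set_biUnion_insert, Finset.sum_insert ha, hI.ms_union, ih]
    · intro i hi j hj hij
      exact h i (Finset.mem_insert_of_mem hi) j (Finset.mem_insert_of_mem hj) hij
    · rw [Set.disjoint_iUnion₂_right]
      intro i hi
      exact h a (Finset.mem_insert_self a s) i (Finset.mem_insert_of_mem hi)
        (fun e => ha (e ▸ hi))

/-- pairwise disjoint sets of mass at least `c > 0`: at most `1 / c` of them -/
theorem card_le {κ : Type*} (s : Finset κ) (B : κ → Set ℤ)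
    (h : ∀ i ∈ s, ∀ j ∈ s, i ≠ j → Disjoint (B i) (B j)) (c : ℝ) (hc : ∀ i ∈ s, c ≤ ms I (B i)) :
    (s.card : ℝ) * c ≤ 1 := by
  have h1 := hI.ms_biUnion s B h
  have h2 := hI.ms_le_one (⋃ i ∈ s, B i)
  have h3 : ∑ _i ∈ s, c ≤ ∑ i ∈ s, ms I (B i) := Finset.sum_le_sum hc
  rw [Finset.sum_const, nsmul_eq_mul] at h3
  linarith

/-- invariance under permutations of bounded displacement -/
theorem perm (σ : Equiv.Perm ℤ) (R : ℕ) (hσ : ∀ j, |σ j - j| ≤ R) {f : ℤ → ℝ} (hf : Bdd f) :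
    I (f ∘ σ) = I f := by
  classical
  obtain ⟨C, hC⟩ := hf
  have hC0 : 0 ≤ C := (abs_nonneg _).trans (hC 0)
  -- comparison of the two averages
  have key : ∀ M : ℕ, |av (f ∘ σ) M - av f M| ≤ 4 * R * C / (2 * M + 1) := by
    intro M
    unfold av
    rw [← sub_div, abs_div, abs_of_pos (win_pos M)]
    apply div_le_div_of_nonneg_right _ (win_pos M).le
    set W := Finset.Icc (-(M : ℤ)) M with hW
    have h1 : ∑ j ∈ W, (f ∘ σ) j = ∑ j ∈ W.map σ.toEmbedding, f j := by
      rw [Finset.sum_map]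
      rfl
    rw [h1]
    set V := W.map σ.toEmbedding with hV
    have h2 : ∑ j ∈ V, f j - ∑ j ∈ W, f j = ∑ j ∈ V \ W, f j - ∑ j ∈ W \ V, f j := by
      have e1 := Finset.sum_inter_add_sum_sdiff V W f
      have e2 := Finset.sum_inter_add_sum_sdiff W V f
      rw [Finset.inter_comm] at e2
      linarith
    rw [h2]
    have hcardV : (V \ W).card ≤ 2 * R := by
      have h3 : V \ W ⊆ Finset.Icc ((M : ℤ) + 1) (M + R) ∪ Finset.Icc (-(M : ℤ) - R) (-(M : ℤ) - 1) := by
        intro i hi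
        rw [Finset.mem_sdiff] at hi
        obtain ⟨j, hj, rfl⟩ := Finset.mem_map.mp hi.1
        have h4 := _root_.abs_le.mp (hσ j)
        rw [hW, Finset.mem_Icc] at hj
        have h5 : ¬ (-(M : ℤ) ≤ σ j ∧ σ j ≤ M) := by
          intro h
          exact hi.2 (Finset.mem_Icc.mpr h)
        rw [Finset.mem_union, Finset.mem_Icc, Finset.mem_Icc]
        show ((M : ℤ) + 1 ≤ σ j ∧ σ j ≤ M + R) ∨ (-(M : ℤ) - R ≤ σ j ∧ σ j ≤ -(M : ℤ) - 1)
        omega
      calc (V \ W).card ≤ _ := Finset.card_le_card h3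
        _ ≤ _ := Finset.card_union_le _ _
        _ = 2 * R := by
          rw [Int.card_Icc, Int.card_Icc]
          omega
    have hcardW : (W \ V).card ≤ 2 * R := by
      have h3 : V.card = W.card := Finset.card_map _
      have h4 := Finset.card_sdiff_add_card_inter V W
      have h5 := Finset.card_sdiff_add_card_inter W V
      rw [Finset.inter_comm] at h5
      omega
    have h6 : ∀ s : Finset ℤ, |∑ j ∈ s, f j| ≤ s.card * C := by
      intro s
      calc |∑ j ∈ s, f j| ≤ ∑ j ∈ s, |f j| := Finset.abs_sum_le_sum_abs _ _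
        _ ≤ ∑ _j ∈ s, C := Finset.sum_le_sum fun j _ => hC j
        _ = _ := by rw [Finset.sum_const, nsmul_eq_mul]
    calc |∑ j ∈ V \ W, f j - ∑ j ∈ W \ V, f j| ≤ |∑ j ∈ V \ W, f j| + |∑ j ∈ W \ V, f j| :=
        abs_sub _ _
      _ ≤ (V \ W).card * C + (W \ V).card * C := add_le_add (h6 _) (h6 _)
      _ ≤ (2 * R : ℝ) * C + (2 * R : ℝ) * C := by
          have e1 : ((V \ W).card : ℝ) ≤ 2 * R := by exact_mod_cast hcardV
          have e2 : ((W \ V).card : ℝ) ≤ 2 * R := by exact_mod_cast hcardW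
          exact add_le_add (mul_le_mul_of_nonneg_right e1 hC0) (mul_le_mul_of_nonneg_right e2 hC0)
      _ = 4 * R * C := by ring
  by_contra hne
  have hpos : 0 < |I (f ∘ σ) - I f| := abs_pos.mpr (sub_ne_zero.mpr hne)
  set t := |I (f ∘ σ) - I f| with ht
  obtain ⟨N, hN⟩ := exists_nat_gt (4 * R * C / (t / 4))
  obtain ⟨M, hM, hM'⟩ := hI {f, f ∘ σ} (by
    intro x hx
    simp only [Finset.mem_insert, Finset.mem_singleton] at hx
    rcases hx with rfl | rfl
    · exact ⟨C, hC⟩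
    · exact ⟨C, fun j => hC _⟩) (t / 4) (by positivity) N
  have h1 := hM' f (by simp)
  have h2 := hM' (f ∘ σ) (by simp)
  have h3 : 4 * R * C / (2 * M + 1) < t / 4 := by
    rw [div_lt_iff₀ (win_pos M)]
    rw [div_lt_iff₀ (by positivity)] at hN
    have h4 : (N : ℝ) ≤ M := by exact_mod_cast hM
    nlinarith
  have h4 := key M
  have h5 : t ≤ |av f M - I f| + |av (f ∘ σ) M - I (f ∘ σ)| + |av (f ∘ σ) M - av f M| := by
    have e : I (f ∘ σ) - I f = (av f M - I f) - (av (f ∘ σ) M - I (f ∘ σ)) +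
        (av (f ∘ σ) M - av f M) := by ring
    rw [ht, e]
    exact (abs_add_le _ _).trans (add_le_add (abs_sub _ _) le_rfl)
  linarith

theorem ms_perm (σ : Equiv.Perm ℤ) (R : ℕ) (hσ : ∀ j, |σ j - j| ≤ R) (B : Set ℤ) :
    ms I (σ '' B) = ms I B := by
  unfold ms
  rw [← hI.perm σ R hσ (Bdd.ind (σ '' B))]
  congr 1
  funext j
  by_cases hj : j ∈ B
  · rw [ind_of_mem hj]
    exact ind_of_mem (Set.mem_image_of_mem σ hj)
  · rw [ind_of_not_mem hj]
    apply ind_of_not_mem
    rintro ⟨i, hi, hij⟩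
    exact hj (σ.injective hij ▸ hi)

end IsMean

end Pool.Agent.FGT
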