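import Pool.Agent.FGT.Base

/-!
FGT: countability of finitely generated groups, of the set of their f.g. subgroups and of
the set of their subgroups of finite index.
-/

namespace Pool.Agent.FGT

theorem countable_of_fg {L : Type*} [Group L] (h : Group.FG L) : Countable L := by
  obtain ⟨S, hS, hfin⟩ := Monoid.fg_iff.mp (Group.fg_iff_monoid_fg.mp h)
  have hc : Countable S := hfin.countable.to_subtype
  have hsurj : Function.Surjective (fun l : List S => (l.map Subtype.val).prod) := by
    intro x
    have hx : x ∈ Submonoid.closure S := by
      rw [hS]
      trivial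
    obtain ⟨l, hl, hlx⟩ := Submonoid.exists_list_of_mem_closure hx
    refine ⟨l.attach.map fun y => ⟨y.1, hl y.1 y.2⟩, ?_⟩
    rw [← hlx]
    simp [Function.comp_def]
  exact hsurj.countable

theorem countable_fg_subgroups {L : Type*} [Group L] [Countable L] :
    {K : Subgroup L | K.FG}.Countable := by
  have h1 : {K : Subgroup L | K.FG} ⊆
      Set.range fun s : Finset L => Subgroup.closure (s : Set L) := by
    rintro K ⟨s, hs⟩
    exact ⟨s, hs⟩
  exact (Set.countable_range _).mono h1

theorem countable_finiteIndex {L : Type*} [Group L] (h : Group.FG L) :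
    {N : Subgroup L | N.FiniteIndex}.Countable := by
  have hc := countable_of_fg h
  refine countable_fg_subgroups.mono ?_
  intro N hN
  have : N.FiniteIndex := hN
  have : Group.FG L := h
  exact (Group.fg_iff_subgroup_fg N).mp (Subgroup.fg_of_index_ne_zero N)

end Pool.Agent.FGT
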