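import Pool.Agent.FGT.Base
import Pool.Agent.Helper22_CIG.FullMain

/-!
Full groups of minimal homeomorphisms: the actions on the orbits (basic lemmas).
-/

namespace Pool.Agent.FGT

open Filter Topology Pool.Agent.H22.CIG Pool.Agent.H67.CIP MeasureTheory

set_option linter.unusedSectionVars false

section Dyn

variable {X : Type*} [TopologicalSpace X] {T : X ≃ₜ X} {L : Type*} [Group L] [MulAction L X]

/-- the action on the orbit of `x`, identified with the integers by `j ↦ T ^ j x` -/
noncomputable def alp (p : Piece T L) (x : X) : L →* Equiv.Perm ℤ :=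
  @MulAction.toPermHom L ℤ _ (orbAct p x)

theorem alp_apply (p : Piece T L) (x : X) (g : L) (j : ℤ) :
    alp p x g j = p.n g ((T ^ j) x) + j := rfl

/-- the points with infinite `K`-orbit -/
def IX (p : Piece T L) (K : Subgroup L) : Set X := {x | (0 : ℤ) ∈ II (alp p x) K}

/-- the points fixed by `K` -/
def FX (X : Type*) {L : Type*} [Group L] [MulAction L X] (K : Subgroup L) : Set X :=
  {x | ∀ g ∈ K, g • x = x}

/-- the points whose `K`-orbit has at most `n` elements -/
def WX (p : Piece T L) (K : Subgroup L) (n : ℕ) : Set X := {x | (orb (alp p x) K 0).encard ≤ n}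

/-- the proportion of the `j` in `[-M, M]` with `T ^ j x ∈ B` -/
noncomputable def dns (T : X ≃ₜ X) (B : Set X) (x : X) (M : ℕ) : ℝ :=
  av (fun j => ind B ((T ^ j) x)) M

theorem alp_zero (p : Piece T L) (x : X) (g : L) : (T ^ (alp p x g 0)) x = g • x := by
  rw [alp_apply, add_zero, zpow_zero, p.eq g x]
  rfl

theorem alp_pt (p : Piece T L) (x : X) (g : L) (j : ℤ) :
    (T ^ (alp p x g j)) x = g • ((T ^ j) x) := by
  rw [alp_apply, zpow_add_apply, p.eq g ((T ^ j) x)]

theorem alp_shift (p : Piece T L) (x : X) (i : ℤ) (g : L) (j : ℤ) :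
    alp p ((T ^ i) x) g j = alp p x g (j + i) - i := by
  rw [alp_apply, alp_apply, zpow_add_apply]
  ring

theorem mem_orb_shift (p : Piece T L) (x : X) (i : ℤ) (K : Subgroup L) (j l : ℤ) :
    l ∈ orb (alp p ((T ^ i) x)) K j ↔ l + i ∈ orb (alp p x) K (j + i) := by
  constructor
  · rintro ⟨g, hg, h⟩
    refine ⟨g, hg, ?_⟩
    rw [alp_shift] at h
    omega
  · rintro ⟨g, hg, h⟩
    refine ⟨g, hg, ?_⟩
    rw [alp_shift]
    omega

theorem orb_shift (p : Piece T L) (x : X) (i : ℤ) (K : Subgroup L) (j : ℤ) :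
    orb (alp p x) K (j + i) = (fun l => l + i) '' orb (alp p ((T ^ i) x)) K j := by
  ext l
  constructor
  · intro h
    refine ⟨l - i, ?_, by ring⟩
    rw [mem_orb_shift, sub_add_cancel]
    exact h
  · rintro ⟨l', h, rfl⟩
    exact (mem_orb_shift p x i K j l').mp h

theorem mem_II_iff (p : Piece T L) (x : X) (K : Subgroup L) (j : ℤ) :
    j ∈ II (alp p x) K ↔ (T ^ j) x ∈ IX p K := by
  show (orb (alp p x) K j).Infinite ↔ (orb (alp p ((T ^ j) x)) K 0).Infinite
  have h1 := orb_shift p x j K 0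
  rw [zero_add] at h1
  rw [h1]
  exact Set.infinite_image_iff (add_left_injective j).injOn

theorem mem_Fx_iff (p : Piece T L) (x : X) (K : Subgroup L) (j : ℤ) :
    j ∈ Fx (alp p x) K ↔ (T ^ j) x ∈ FX X K := by
  show (∀ g ∈ K, alp p x g j = j) ↔ ∀ g ∈ K, g • ((T ^ j) x) = (T ^ j) x
  refine forall₂_congr fun g _ => ?_
  rw [← p.eq_zero_iff, alp_apply]
  omega

theorem alp_eq_self_iff (p : Piece T L) (x : X) (g : L) (j : ℤ) :
    alp p x g j = j ↔ g • ((T ^ j) x) = (T ^ j) x := by
  rw [← p.eq_zero_iff, alp_apply]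
  omega

theorem alp_bdp [CompactSpace X] (p : Piece T L) (x : X) : BDp (alp p x) := by
  intro g
  obtain ⟨R, hR⟩ := cont_bound (p.n g) (p.cont g)
  refine ⟨R, fun j => ?_⟩
  rw [alp_apply, add_sub_cancel_right]
  exact hR _

/-- the point `g • x` lies in `IX p K` iff the `K`-orbit of `alp p x g 0` is infinite -/
theorem smul_mem_IX_iff (p : Piece T L) (x : X) (K : Subgroup L) (g : L) :
    g • x ∈ IX p K ↔ (orb (alp p x) K (alp p x g 0)).Infinite := by
  rw [← alp_zero p x g, ← mem_II_iff]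
  rfl

end Dyn

end Pool.Agent.FGT
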