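import Pool.Agent.FGT.Dyn

/-!
Squad FGT (MP_c4a8aa_al, leader helper73).  THEOREM FG.  Every infinite amenable subgroup of the
topological full group of a minimal homeomorphism of an infinite compact Hausdorff space has two
infinite commuting subgroups or an infinite locally finite subgroup (no growth condition, no
condition on supports).

Every row: file `Pool/Agent/HelperNN_FGT/XXX.lean`, `import Pool.Agent.FGT.Stmts`, namespace
`Pool.Agent.FGT.HNN`, `theorem xxx (h1 : YyyStmt.{..}) ... : XxxStmt.{..}`; the hypotheses are the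
statements in the column `uses` of the table `fgt`, in this order.  The basic lemmas are in
`Pool/Agent/FGT/Base.lean` (means `IsMean`, `ms`, windows) and `Pool/Agent/FGT/Dyn.lean`
(`alp p x` = action on the orbit of `x`, identified with the integers).

NOTATION in the docstrings: `m` = `ms I`, `D` = `DD α I z`, `k` = `kk α I`, `Ix K` = `II α K`,
`Lam` = the orbit of `z` under `L`.
-/

namespace Pool.Agent.FGT

open Filter Topology Pool.Agent.H22.CIG Pool.Agent.H67.CIP Pool.Agent.H50.CIG MeasureTheory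

universe u v

open scoped Pointwise

/-! ## A. Groups -/

/-- **MHD** (uses: none).  Morse - Hedlund: an infinite word with at most `n` factors of length `n` is
eventually periodic.

PROOF.  Let `p(m)` be the number of factors of length `m` of `x` (finite alphabet).  `p(0) = 1`, `p`
is monotone (every factor of length `m` is the beginning of a factor of length `m + 1`).  If
`p(m + 1) > p(m)` for all `m < n` then `p(n) ≥ n + 1`: contradiction; so `p(m + 1) = p(m)` for some
`m < n`: the restriction map from the factors of length `m + 1` to the factors of length `m` is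
surjective between finite sets of the same size, so injective: every factor of length `m` has exactly
one continuation.  Pigeonhole: two positions `i < j` with the same factor of length `m`; by induction
`x (j + l) = x (i + l)` for all `l`; `d = j - i`. -/
def MhdStmt : Prop := ∀ (A : Type u) [Finite A] (x : ℕ → A) (n : ℕ),
  {w : Fin n → A | ∃ i : ℕ, ∀ k : Fin n, w k = x (i + k)}.ncard ≤ n →
  ∃ i d : ℕ, 0 < d ∧ ∀ l : ℕ, i ≤ l → x (l + d) = x l

/-- **LIN** (uses: MHD).  An infinite torsion group generated by the finite symmetric set `S` with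
`1 ∈ S` does not have linear growth.

PROOF.  Suppose `|S^n| ≤ C (n + 1)` for all `n`.  Let `s(n)` be the number of elements of word
length exactly `n` (`S^n` minus `S^(n-1)`).  `s(n) ≥ 1` for all `n` since `G` is infinite.  If
`s(n) ≥ n` for all `n ≥ 1` then `|S^n| ≥ n²/2`, contradiction for large `n`; so `s(n) ≤ n` (even
`< n`) for some `n ≥ 1`.  Fix a linear order on `S`; for every `g` let `w(g)` be the first word (in
the lexicographic order) among the words of minimal length representing `g`.  A factor (contiguous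
subword) of a word `w(g)` is again of the form `w(h)`.  By Koenig's lemma (infinitely many `g`,
prefixes) there is an infinite word `x : ℕ → S` all of whose finite factors are of the form `w(h)`.
The number `p(m)` of factors of length `m` of `x` is `≤ s(m)` (the map from factors to elements is
injective on the words `w(h)`), so `p(n) ≤ n`, and MHD gives `x (l + d) = x l` for all `l ≥ i`.
With `v = x_i ... x_(i+d-1)` the word `v^k` is a factor of `x` for all `k`: the element
`v` satisfies `|v^k| = k d`, so `v` has infinite order, contradiction. -/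
def LinStmt : Prop := ∀ (G : Type u) [Group G], Infinite G → Tors G → ∀ S : Finset G, 1 ∈ S →
  (∀ s ∈ S, s⁻¹ ∈ S) → Subgroup.closure (S : Set G) = ⊤ → ∀ C : ℕ, ∃ n : ℕ,
  C * (n + 1) < ((S : Set G) ^ n).ncard

/-- **INV** (uses: none).  An infinite amenable torsion group in which the centralizers of the
non-trivial elements are finite has no involution.

PROOF (helper45).  Let `x ≠ 1`, `x x = 1`, `C = C(x)` finite, `c = |C|`.  For `g` put
`t = x g⁻¹ x g`; `x t x = t⁻¹`.  (i) If the order of `t` is even, let `z` be the involution in the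
powers of `t`: `z` commutes with `x` and with `g⁻¹ x g` (both invert `t`), so `z ∈ C - 1`,
`g z g⁻¹ ∈ C - 1`; for given `z, z' ∈ C - 1` the `g` with `g z g⁻¹ = z'` are a coset of `C(z)`,
finite.  So only finitely many `g` have `t` of even order (this includes no case with `t = 1`).
(ii) If the order of `t` is `2 l + 1`, put `h = t^(l+1)` (so `h² = t`), `x h x = h⁻¹`, and
`h⁻¹ x h = x h² = x t = g⁻¹ x g` (check: `h⁻¹ x h = x (x h⁻¹ x) h = x h h = x t`, and
`x t = x x g⁻¹ x g = g⁻¹ x g`).  So `g h⁻¹ ∈ C`, `g ∈ C J`, `J = {h | x h x = h⁻¹}`.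
(iii) For `u ≠ 1` the set of the `h ∈ J` with `u h ∈ J` is finite: `x u h x = h⁻¹ u⁻¹` and
`x u h x = (x u x) h⁻¹`, so `x u x = h⁻¹ u⁻¹ h`: a coset of `C(u)`.
Let `m` be a left invariant mean (or work with a Foelner set `F` that is `(S, ε)`-invariant with
`S` containing `C`, `c + 1` distinct elements `u_0..u_c` and their inverses; `|F|` is as large as we
want because `G` is infinite: take `S` large).  By (i), (ii) `m(J) ≥ 1/c`; by (iii) the sets
`u_i J`, `i ≤ c`, have pairwise finite intersections, so `m` of the union is `(c+1) m(J) > 1`,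
contradiction. -/
def InvStmt : Prop := ∀ (G : Type u) [Group G], Infinite G → Tors G → FCen G → Fol G → NInv G

/-- **FOS** (uses: none).  Subgroups of amenable groups are amenable (Foelner condition).

PROOF.  `S` a finite subset of `H`, `ε > 0`.  Let `F` be a Foelner set of `G` for the image of `S`
and `ε / (|S| + 1)`.  Decompose `F` in right cosets: `F = ⊔ F_i t_i`, `F_i ⊆ H` finite non-empty.
For `s ∈ S`: `{g ∈ F | s g ∉ F}` is the disjoint union of the `{h ∈ F_i | s h ∉ F_i} t_i`.  So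
`∑_i ∑_s |{h ∈ F_i | s h ∉ F_i}| ≤ |S| ε/(|S|+1) ∑ |F_i| ≤ ε ∑ |F_i|`; some `i` has
`∑_s |{h ∈ F_i | s h ∉ F_i}| ≤ ε |F_i|`. -/
def FosStmt : Prop := ∀ (G : Type u) [Group G], Fol G → ∀ H : Subgroup G, Fol H

/-- **FOQ** (uses: none).  Quotients of amenable groups are amenable (Foelner condition).

PROOF.  `S` a finite subset of `Q`, choose preimages.  `F` a Foelner set of `G` for them and
`ε/(|S|+1)`.  `a(q) = |F ∩ f⁻¹(q)|`, level sets `F_k = {q | a(q) ≥ k}`, `k = 1..max a`.  For `s` in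
`S` with preimage `s'`: `∑_k |{q ∈ F_k | s q ∉ F_k}| = ∑_q max(a(q) - a(s q), 0) ≤
|{g ∈ F | s' g ∉ F}|` (`g ↦ s' g` maps the elements of `F` over `q`, which have `s' g ∈ F`,
injectively to the elements of `F` over `s q`).  `∑_k |F_k| = |F|`.  So some non-empty `F_k` is
good for all `s ∈ S`. -/
def FoqStmt : Prop := ∀ (G Q : Type u) [Group G] [Group Q] (f : G →* Q), Function.Surjective f →
  Fol G → Fol Q

/-- **FOE** (uses: none).  Foelner sequence of a countable amenable group.  Take `Ω n` for the first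
`n` elements and `ε = 1/(n+1)`; `prop_eq` describes `prop`. -/
def FoeStmt : Prop := ∀ (G : Type u) [Group G], Countable G → Fol G →
  ∃ Ω : ℕ → Finset G, (∀ n, (Ω n).Nonempty) ∧
    ∀ h : G, Tendsto (fun n => prop (Ω n) (fun g => h * g ∉ Ω n)) atTop (𝓝 0)

/-- **RAL** (uses: none).  Reduction to finite centralizers, algebra.

PROOF.  `G` is torsion (an element of infinite order gives `CI`: the cyclic group it generates, take
`A = B`).  Let `𝒜` be the set of the finite subgroups `A` which are commutative (`A ≤ centralizer A`)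
and have an infinite centralizer; `⊥ ∈ 𝒜`.  There is a maximal `A ∈ 𝒜`: otherwise there is a
strictly increasing sequence in `𝒜` whose union is an infinite commutative group: `CI`.  Let
`C = centralizer A`, `x ∈ C`, `x ∉ A`.  `A' = A ⊔ zpowers x` is commutative and finite (`x` has
finite order), strictly larger, so its centralizer `C ∩ C(x)` is finite.  On the set
`Y = {y ∈ C | y x y⁻¹ x⁻¹ ∈ A}`: the fibres of `y ↦ y x y⁻¹ x⁻¹ ∈ A` are contained in left cosets of
`C ∩ C(x)` (`y x y⁻¹ = y' x y'⁻¹` implies `y⁻¹ y' ∈ C(x)`); so `Y` is finite. -/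
def RalStmt : Prop := ∀ (G : Type u) [Group G], Infinite G → ¬ CI G →
  ∃ A : Subgroup G, (A : Set G).Finite ∧ A ≤ Subgroup.centralizer (A : Set G) ∧
    ((Subgroup.centralizer (A : Set G) : Subgroup G) : Set G).Infinite ∧
    ∀ x ∈ Subgroup.centralizer (A : Set G), x ∉ A →
      {y : G | y ∈ Subgroup.centralizer (A : Set G) ∧ y * x * y⁻¹ * x⁻¹ ∈ A}.Finite

/-- **EMB** (uses: none).  `H / A` embeds in the topological full group (`A` finite and central in
`H`, `[y, x] ∈ A` for finitely many `y ∈ H` only, for all `x ∈ H - A`).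

PROOF.  `Y = {x | ∀ a ∈ A, 0 ≤ p.n a x}` (`x` is the leftmost point of its `A`-orbit), clopen.  For
`g ∈ H` put `N_g(x) = min_(a ∈ A) p.n (a g) x` for `x ∈ Y` and `N_g(x) = 0` for `x ∉ Y`; continuous,
`N_(a g) = N_g` for `a ∈ A` and `N_g(x) = 0` for `g ∈ A` (for `x ∈ Y` the minimum of `p.n a x` is
`p.n 1 x = 0`).  `R_g(x) = T^(N_g(x)) x`.  For `x ∈ Y`: `R_g(x)` is the leftmost point of the
`A`-orbit of `g x`, so `R_g(x) ∈ Y`, `R_g(x) = a_0 g x` for some `a_0 ∈ A`.  `R_g (R_h x) = R_(g h) x`: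
`R_h x = a_0 h x`, `R_g(R_h x)` is the leftmost point of `A g a_0 h x = A a_0 g h x = A g h x` (`A` is
central in `H`).  So `H / A` acts by `R`, with cocycle `N` (`Piece`: `n`, `cont`, `eq`, `ap = p.ap`).
FAITHFUL: if `R_g = id` then for `x ∈ Y` `x` is the leftmost point of `A g x`, so `g x ∈ A x`; every
`x ∈ X` is `a y` with `y ∈ Y` (leftmost point of its `A`-orbit), `g x = g a y = a g y ∈ A y = A x`.
Let `K_0 = {g ∈ H | ∀ x, g x ∈ A x}`; a subgroup (`A` central), normal in `H`.  A f.g. subgroup `F`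
of `K_0` is finite: its orbits have at most `|A|` points; the kernels of the actions of `F` on its
orbits have index `≤ |A|!`, there are finitely many such subgroups in a f.g. group, their
intersection acts trivially on `X`, so it is trivial (faithful) [alternatively: `F` embeds in the
finite group of functions...].  So `K_0` is finite (`NLFS`).  If `x ∈ K_0`, `x ∉ A`: `{y ∈ H | y x
y⁻¹ x⁻¹ ∈ A}` is finite but contains the stabilizer of `x` under the action of the infinite group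
`H` by conjugation on the finite set `K_0`, which is infinite: contradiction.  So `K_0 = A`. -/
def EmbStmt : Prop := ∀ (X : Type v) [TopologicalSpace X] [CompactSpace X] (T : X ≃ₜ X)
  (G : Type u) [Group G] [MulAction G X] [FaithfulSMul G X] (_p : Piece T G), NLFS G →
  ∀ A H : Subgroup G, (A : Set G).Finite → A ≤ H → (∀ a ∈ A, ∀ h ∈ H, a * h = h * a) →
  (H : Set G).Infinite → (∀ x ∈ H, x ∉ A → {y : G | y ∈ H ∧ y * x * y⁻¹ * x⁻¹ ∈ A}.Finite) →
  ∀ [(A.subgroupOf H).Normal], ∃ i : MulAction (H ⧸ A.subgroupOf H) X,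
    @FaithfulSMul (H ⧸ A.subgroupOf H) X i.toSMul ∧
    Nonempty (@Piece X _ T (H ⧸ A.subgroupOf H) _ i)

/-- **RDL** (uses: INV, FOS, FOQ, RAL, EMB).  The reduction to good groups.

PROOF.  `A` from RAL, `C = centralizer A`.  `C` is infinite, so by `NLFS` it has a f.g. infinite
subgroup `H_0`; `H = H_0 ⊔ A`, f.g. (`A` finite), infinite, `A ≤ H ≤ C`.  `L = H / A` (as
`H ⧸ A.subgroupOf H`, normal because `A` is central in `H`).  EMB gives the action.  `Good L`:
infinite, f.g.; torsion (`¬ CI G`, as in RAL); centralizer of `x A ≠ 1` = image of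
`{y ∈ H | [y, x] ∈ A}`, finite; `NLFS L`: the preimage `K` in `H` (mapped to `G`) of a locally
finite subgroup is locally finite (a f.g. subgroup of the preimage has finite image and finite
kernel `≤ A`), so finite by `NLFS G`; `NInv` by INV, using `Fol L` (FOS, FOQ). -/
def RdlStmt : Prop := ∀ (X : Type v) [TopologicalSpace X] [CompactSpace X] (T : X ≃ₜ X)
  (G : Type u) [Group G] [MulAction G X] [FaithfulSMul G X] (_p : Piece T G),
  Infinite G → ¬ CI G → NLFS G → Fol G →
  ∃ (L : Type u) (_ : Group L) (i : MulAction L X),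
    @FaithfulSMul L X i.toSMul ∧ Nonempty (@Piece X _ T L _ i) ∧ Good L ∧ Fol L

/-! ## B. The orbit theorem -/

/-- **DNS** (uses: none).  Infinite orbits of f.g. subgroups have positive mass.

PROOF.  Let `K` be generated by a finite set, `R ≥ 1` a bound for the displacements of the
generators and their inverses.  Let `O = orb α K j` be infinite.  Between two points of `O` there is
a chain of points of `O` with steps `≤ R`.  `O` is unbounded above or below, say above: for every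
`q ≥ j` the interval `(q, q + R]` contains a point of `O` (a chain from `j` to a point `> q + R` has
to jump over).  So `O ∩ [-M, M]` has at least `(M - j)/R - 1` elements for `M ≥ j`, and
`m(O) ≥ 1/(2R)`: if `m(O) < 1/(2R)` apply `IsMean` with the single function `ind O` and
`av_ind` to large `M`.  `c = 1/(2R)` (or anything smaller). -/
def DnsStmt : Prop := ∀ (L : Type u) [Group L] (α : L →* Equiv.Perm ℤ), BDp α →
  ∀ I : (ℤ → ℝ) → ℝ, IsMean I → ∀ K : Subgroup L, K.FG →
  ∃ c : ℝ, 0 < c ∧ ∀ j ∈ II α K, c ≤ ms I (orb α K j)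

/-- **STB** (uses: LIN).  Infinite stabilizers.

PROOF.  It is enough to treat one point `j` (induction over `F`; the new subgroup is f.g. and
infinite again).  Let `K` be f.g. infinite, `S` a finite symmetric generating set with `1`, `ρ` a
bound for the displacements of the elements of `S`.  `K_j` = stabilizer of `j` in `K`.  `S^n` moves
`j` to at most `2 ρ n + 1` points, the fibres of `g ↦ α g j` on `S^n` have at most `|K_j|` elements.
If `K_j` is finite this contradicts LIN (applied to the group `K`).  So `K_j` is infinite; by `NLFS`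
it has a f.g. infinite subgroup `K'`. -/
def StbStmt : Prop := ∀ (L : Type u) [Group L], Tors L → NLFS L → ∀ α : L →* Equiv.Perm ℤ,
  BDp α → ∀ K : Subgroup L, K.FG → (K : Set L).Infinite → ∀ F : Finset ℤ,
  ∃ K' : Subgroup L, K' ≤ K ∧ K'.FG ∧ (K' : Set L).Infinite ∧ ∀ j ∈ F, j ∈ Fx α K'

/-- **KRA** (uses: none).  Elementary properties of `DD` and `kk`.

PROOF.  All sets of reals are non-empty (`K = ⊥`) and bounded by `1`.  Invariance: `K ↦ g K g⁻¹`,
`II α (g K g⁻¹) = α g '' II α K`, `ms_perm`, `Lk α (α g y) (α g z) (α g z') ↔ Lk α y z z'`.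
`kk z z = DD z`: `Lk α y z z` always holds; for `K, K'` fixing `z` the group `K ⊔ K'` is f.g., fixes
`z` and `II α K ⊆ II α (K ⊔ K')`.  Symmetry: `Lk` is symmetric.  `kk z z' ≤ DD z`: monotonicity. -/
def KraStmt : Prop := ∀ (L : Type u) [Group L] (α : L →* Equiv.Perm ℤ), BDp α →
  ∀ I : (ℤ → ℝ) → ℝ, IsMean I →
  (∀ (g : L) (z : ℤ), DD α I (α g z) = DD α I z) ∧
  (∀ (g : L) (z z' : ℤ), kk α I (α g z) (α g z') = kk α I z z') ∧
  (∀ z z' : ℤ, kk α I z z' = kk α I z' z) ∧
  (∀ z : ℤ, kk α I z z = DD α I z) ∧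
  (∀ z z' : ℤ, 0 ≤ kk α I z z' ∧ kk α I z z' ≤ DD α I z ∧ kk α I z z' ≤ DD α I z') ∧
  (∀ (z : ℤ) (K : Subgroup L), K.FG → z ∈ Fx α K → ms I (II α K) ≤ DD α I z) ∧
  (∀ (z z' : ℤ) (K K' : Subgroup L), K.FG → K'.FG → z ∈ Fx α K → z' ∈ Fx α K' →
    ms I {y | y ∈ II α K ∧ y ∈ II α K' ∧ Lk α y z z'} ≤ kk α I z z')

/-- **KEX** (uses: KRA).  If `kk z z' = DD z = DD z'`: (1) for `K` f.g. fixing `z` almost all
`y ∈ II α K` have `Lk α y z z'`; (2) `II α K` is almost contained in `II α K'` if `II α K'` is almost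
maximal.

PROOF.  (1) Given `ε > 0` there are `K_1` (fixing `z`), `K_1'` (fixing `z'`) f.g. with
`m{y ∈ Ix K_1 ∩ Ix K_1' | Lk y z z'} ≥ D - ε`; the same holds for `K_1 ⊔ K`; `m(Ix (K_1 ⊔ K)) ≤ D`.
So `m{y ∈ Ix (K_1 ⊔ K) | ¬ Lk y z z'} ≤ ε`, and `Ix K ⊆ Ix (K_1 ⊔ K)`.  (2) With `K_1 ≥ K`,
`K_1' ≥ K'`: `m(Ix K_1 ∩ Ix K_1') ≥ D - ε'`, `m(Ix K_1) ≤ D`, so `m(Ix K_1 - Ix K_1') ≤ ε'`, and
`m(Ix K_1' - Ix K') ≤ D - (D - ε) = ε`; `Ix K - Ix K'` is contained in the union; `ε' → 0`. -/
def KexStmt : Prop := ∀ (L : Type u) [Group L] (α : L →* Equiv.Perm ℤ), BDp α →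
  ∀ I : (ℤ → ℝ) → ℝ, IsMean I → ∀ z z' : ℤ, kk α I z z' = DD α I z → DD α I z' = DD α I z →
  (∀ K : Subgroup L, K.FG → z ∈ Fx α K → ms I {y | y ∈ II α K ∧ ¬ Lk α y z z'} = 0) ∧
  (∀ (K K' : Subgroup L) (ε : ℝ), K.FG → K'.FG → z ∈ Fx α K → z' ∈ Fx α K' →
    DD α I z - ε ≤ ms I (II α K') → ms I (II α K \ II α K') ≤ ε)

/-- **PSD** (uses: none).  The kernel is positive semidefinite.

PROOF.  Let `η > 0`.  For every pair `i, j ∈ s` choose f.g. `K, K'` fixing `i` and `j` with
`m{y ∈ Ix K ∩ Ix K' | Lk y i j} ≥ kk i j - η`; for every `i ∈ s` let `K_i` be the join of all the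
subgroups fixing `i` which occur: f.g., fixes `i`, and for all pairs
`kk i j - η ≤ m{y ∈ Ix K_i ∩ Ix K_j | Lk y i j} ≤ kk i j`.  For fixed `y` put
`A_y = {i ∈ s | y ∈ Ix K_i}`; `i ~ j :⇔ Lk y i j` is an equivalence relation; so
`q(y) = ∑_(i,j) c_i c_j [i, j ∈ A_y, Lk y i j] = ∑_(classes) (∑_(i in the class, i ∈ A_y) c_i)² ≥ 0`
(e.g. by `∑_(i,j) c_i c_j r(i,j) ≥ 0` for an equivalence relation `r` on a finite set), a bounded
function of `y` with `I q = ∑ c_i c_j m{..} ≥ 0`.  So `∑ c_i c_j kk i j ≥ - η (∑ |c_i|)²`. -/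
def PsdStmt : Prop := ∀ (L : Type u) [Group L] (α : L →* Equiv.Perm ℤ), BDp α →
  ∀ I : (ℤ → ℝ) → ℝ, IsMean I → ∀ (s : Finset ℤ) (c : ℤ → ℝ),
  0 ≤ ∑ i ∈ s, ∑ j ∈ s, c i * c j * kk α I i j

/-- **EQV** (uses: KRA, PSD).  `kk z z' = D` is an equivalence relation on points with `DD = D`.

PROOF.  PSD for the points `z, z', z''` with coefficients `1, -t, t`... simpler: the Gram matrix
`[[D, D, k], [D, D, D], [k, D, D]]` (`k = kk z z''`) is positive semidefinite; test with
`c = (1, -2, 1)`: `D + 4 D + D - 4 D - 4 D + 2 k = 2 k - 2 D ≥ 0`, so `k ≥ D`, and `k ≤ D` by KRA.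
(If some of the points coincide the statement is trivial: `kk z z = D`.) -/
def EqvStmt : Prop := ∀ (L : Type u) [Group L] (α : L →* Equiv.Perm ℤ), BDp α →
  ∀ I : (ℤ → ℝ) → ℝ, IsMean I → ∀ z z' z'' : ℤ, DD α I z' = DD α I z → DD α I z'' = DD α I z →
  kk α I z z' = DD α I z → kk α I z' z'' = DD α I z → kk α I z z'' = DD α I z

/-- **CLS** (uses: none).  For `y` with infinite `K`-orbit, points of one `L`-orbit which are fixed by
`K` lie in at most `1/c` orbits of the stabilizer of `y`.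

PROOF.  Let `x ∈ s`, `x = α (g_x) z`.  The sets `α (g_x)⁻¹ '' orb α K y`, `x ∈ s`, are pairwise
disjoint: if `α g_x⁻¹ y_1 = α g_x'⁻¹ y_2`, `y_1 = α k_1 y`, `y_2 = α k_2 y`, then
`h = k_2⁻¹ g_x' g_x⁻¹ k_1` fixes `y` and maps `x` to `x'` (`K` fixes `x` and `x'`): `Lk α y x x'`.
Each has mass `m(orb α K y) ≥ c` (`ms_perm`); `IsMean.card_le`. -/
def ClsStmt : Prop := ∀ (L : Type u) [Group L] (α : L →* Equiv.Perm ℤ), BDp α →
  ∀ I : (ℤ → ℝ) → ℝ, IsMean I → ∀ (K : Subgroup L) (c : ℝ) (z y : ℤ) (s : Finset ℤ),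
  c ≤ ms I (orb α K y) → (∀ x ∈ s, x ∈ Fx α K ∧ ∃ g : L, α g z = x) →
  (∀ x ∈ s, ∀ x' ∈ s, x ≠ x' → ¬ Lk α y x x') → (s.card : ℝ) * c ≤ 1

/-- **TBD** (uses: DNS, KRA, PSD, CLS).  The orbit of `z` is totally bounded for `D - kk`.

PROOF.  `m(Lam) > 0` by DNS for `K = ⊤` (f.g.).  Let `ε > 0`.  COV with `ε/8` and `η < m(Lam)`
(`η = m(Lam)/2`): there is `K` f.g. with `m(Ix K) ≥ D - ε/8` and `m(Lam ∩ Fx K) > 0` (otherwise the
points of `Lam` outside all `Fx K`, `K ∈ F`, have mass `m(Lam)`; use `ms_biUnion_le`).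
`c` from DNS for `K`; the infinite `K`-orbits are disjoint of mass `≥ c`, so there are finitely many,
`O_1..O_q`, choose `y_i ∈ O_i`; `Ix K` is their union.  For `x, x' ∈ Lam ∩ Fx K` put `x ≃ x'` iff
`Lk α y_i x x'` for all `i`.  By CLS each of the equivalence relations `Lk α y_i` has at most `1/c`
classes on `Lam ∩ Fx K`; so `≃` has finitely many classes, and one class `P` has `m(P) > 0`.
For `x ≃ x'` we have `Lk α y x x'` for ALL `y ∈ Ix K` (`y = α k y_i`, conjugate by `k`, which fixes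
`x` and `x'`), so `kk x x' ≥ m(Ix K) ≥ D - ε/8` (KRA).  So with `x_0 ∈ P`:
`B(x_0) = {x ∈ Lam | D - kk x_0 x ≤ ε/8}` has mass `β > 0`, and by invariance (KRA, `ms_perm`)
`m(B(x)) = β` for all `x ∈ Lam`.  A maximal set `x_1..x_r` in `Lam` with disjoint `B(x_i)` is finite
(`IsMean.card_le`).  For `x ∈ Lam` some `B(x_i)` meets `B(x)`: there is `w` with `kk x w ≥ D - ε/8`
and `kk x_i w ≥ D - ε/8`.  PSD for `x, w, x_i` with coefficients `1, -2, 1` gives
`6 D - 4 kk x w - 4 kk x_i w + 2 kk x x_i ≥ 0`, so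
`D - kk x x_i ≤ 2 (D - kk x w) + 2 (D - kk x_i w) ≤ ε/2 < ε` (coincidences of points are trivial or
give the same inequality). -/
def TbdStmt : Prop := ∀ (L : Type u) [Group L], Group.FG L → ∀ α : L →* Equiv.Perm ℤ, BDp α →
  ∀ I : (ℤ → ℝ) → ℝ, IsMean I → ∀ z : ℤ, z ∈ II α (⊤ : Subgroup L) → COV α I z →
  ∀ ε : ℝ, 0 < ε → ∃ F : Finset ℤ, (∀ f ∈ F, ∃ g : L, α g z = f) ∧
    ∀ g : L, ∃ f ∈ F, DD α I z - kk α I (α g z) f < ε

/-- **SWP** (uses: none).  Counting pairs in a window.

PROOF.  Choose `M` large with `|av (ind V) M - m(V)| < e/16` and `|av (ind (Bad i)) M - m(Bad i)| <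
e/16` for all `i ∈ s` (one application of `IsMean`).  `V_M = V ∩ [-M, M]`, `W = 2M+1`:
`|V_M| ≥ (15/16) e W`, `|Bad i ∩ [-M,M]| ≤ (e/8 + e/16) W = (3/16) e W`.  If the conclusion fails,
for all `z ≠ y` in `V_M` one of `P z y`, `P y z` fails; so the number of ordered pairs `(z, y)` in
`V_M`, `z ≠ y`, with `¬ P z y` is at least `|V_M| (|V_M| - 1)/2`; but for every `z` it is at most
`(3/16) e W`.  So `|V_M| - 1 ≤ (3/8) e W`, `(9/16) e W ≤ 1`: false for large `M`. -/
def SwpStmt : Prop := ∀ I : (ℤ → ℝ) → ℝ, IsMean I → ∀ (V : Set ℤ) (e : ℝ), 0 < e → e ≤ ms I V →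
  ∀ P : ℤ → ℤ → Prop, ∀ (ι : Type u) (s : Finset ι) (Bad : ι → Set ℤ),
  (∀ i ∈ s, ms I (Bad i) ≤ e / 8) →
  (∀ z ∈ V, ∃ i ∈ s, ∀ y ∈ V, y ∉ Bad i → P z y) →
  ∃ z ∈ V, ∃ y ∈ V, z ≠ y ∧ P z y ∧ P y z

/-- **TYF** (uses: DNS, STB, KRA, KEX, EQV, SWP).  Type F: finitely many classes is impossible.

PROOF.  `Lam` = orbit of `z`; all points of `Lam` have the same `DD = D` (KRA).  On `Lam` the relation
`x ~ x' :⇔ kk x x' = D` is an `L`-invariant equivalence relation (KRA, EQV) with finitely many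
classes.  Let `E` be the class of `z` and `N` = the kernel of the action of `L` on the (finite) set of
classes, i.e. `N = {g | ∀ x ∈ Lam, kk (α g x) x = D}`: a subgroup of finite index, and
`α g z ∈ E` for `g ∈ N`.
STB with `K = ⊤`, `F = {z}`: `K₀` f.g. infinite fixing `z`.  NS for `K₀` and `N`: `y₀ = α g z`,
`g ∈ N`, with infinite `K₀`-orbit.  `K₁ = K₀ ⊓ N` is f.g. (finite index in a f.g. group), its orbit
`V₀ = orb α K₁ y₀` is infinite (finite index), so `e₀ = m(V₀) > 0` (DNS); `V₀ ⊆ E ∩ orb α K₀ y₀`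
(elements of `N` preserve the classes).  `O₀ = orb α K₀ y₀ ⊆ Ix K₀`.
`P x y :⇔ ∃ g, α g z = x ∧ α g y₀ = y`.  `P z y` for all `y ∈ O₀` (`K₀` fixes `z`).  If `P x y` and
`Lk α y x x'` then `P x' y`.
(a) For `x ∈ E`: `m{y ∈ O₀ | ¬ P x y} = 0`: KEX (1) with `z, x, K₀`.
(b) Put `e = e₀/2`, `ε = e/8`.  COV with `ε` and `η = e₀/2`: finite set `F` of f.g. `K` with
`m(Ix K) ≥ D - ε`, `m(Lam - ∪ Fx K) ≤ η`.  `V = V₀ ∩ ∪_(K ∈ F) Fx K`, `m(V) ≥ e₀ - η = e`.  For
`K ∈ F` with `E ∩ Fx K ≠ ∅` choose `x_K ∈ E ∩ Fx K`.  For `x ∈ E ∩ Fx K`: the set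
`Z = {y ∈ Ix K | ¬ Lk α y x_K x}` has mass `0` (KEX (1) for `x_K, x, K`) and is a union of infinite
`K`-orbits (`K` fixes `x` and `x_K`), which have mass `≥ c > 0` (DNS): `Z = ∅`.
`Bad K = {y ∈ O₀ | ¬ P x_K y} ∪ (O₀ - Ix K)`: mass `≤ 0 + m(Ix K₀ - Ix K) ≤ ε = e/8` (KEX (2) for
`z, x_K, K₀, K`).  For `x ∈ V`: `x ∈ E ∩ Fx K` for some `K ∈ F`, and for `y ∈ V - Bad K`: `y ∈ Ix K`,
`P x_K y`, `Lk α y x_K x`, so `P x y`.
SWP: there are `x ≠ y` with `P x y`, `P y x`: `g₁ : (z, y₀) ↦ (x, y)`, `g₂ : (z, y₀) ↦ (y, x)`,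
`h = g₂ g₁⁻¹` maps `x` to `y` and `y` to `x`.  `h` has finite order `n`; if `n` is odd then
`h = (h²)^((n+1)/2)` fixes `x`, contradiction; so `n` is even and `h^(n/2)` is an involution,
contradiction to `NInv`. -/
def TyfStmt : Prop := ∀ (L : Type u) [Group L], Good L → ∀ α : L →* Equiv.Perm ℤ, BDp α →
  ∀ I : (ℤ → ℝ) → ℝ, IsMean I → ∀ z : ℤ, COV α I z → NS α z →
  (∃ F : Finset ℤ, ∀ g : L, ∃ f ∈ F, (∃ h : L, α h z = f) ∧ kk α I (α g z) f = DD α I z) → False

/-- **GNS** (uses: none).  The Hilbert space of an invariant positive semidefinite kernel.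

PROOF.  Mathlib: `Mathlib/Analysis/InnerProductSpace/Reproducing.lean`, `OfKernel K` (Moore -
Aronszajn) for the kernel `K x y = k x y • id`; `ξ x = kerFun x 1`, `inner (ξ x) (ξ y) = k x y`,
`kerFun_dense`: `inner v (ξ x) = 0` for all `x` implies `v = 0` (or `v x = inner (ξ x) v`).
`π g`: the linear map of the span with `ξ x ↦ ξ (g • x)` is well defined and isometric because `k`
is invariant, it extends to the closure; or: `π g v = v ∘ g⁻¹` as functions on `Λ`.  (One may also
construct the Hilbert space by hand: `Λ →₀ ℝ` with the semi inner product `∑ c_i d_j k i j`,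
`Completion`; `π g` is induced by `Finsupp.mapDomain`.) -/
def GnsStmt : Prop := ∀ (G : Type u) [Group G] (Λ : Type) [MulAction G Λ] (k : Λ → Λ → ℝ),
  (∀ x y, k x y = k y x) → (∀ (g : G) (x y : Λ), k (g • x) (g • y) = k x y) →
  (∀ (s : Finset Λ) (c : Λ → ℝ), 0 ≤ ∑ i ∈ s, ∑ j ∈ s, c i * c j * k i j) →
  ∃ (H : Type) (_ : NormedAddCommGroup H) (_ : InnerProductSpace ℝ H) (_ : CompleteSpace H)
    (ξ : Λ → H) (π : G →* (H ≃ₗᵢ[ℝ] H)),
    (∀ x y, inner ℝ (ξ x) (ξ y) = k x y) ∧ (∀ (g : G) (x : Λ), π g (ξ x) = ξ (g • x)) ∧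
    ∀ v : H, (∀ x, inner ℝ v (ξ x) = 0) → v = 0

/-- **OPC** (uses: none).  The compact operator `A v = J_x (<ξ x, v> ξ x)`.

PROOF.  `|<ξ x, v>| ≤ √D |v|`.  The bilinear form `B(v, w) = J (x ↦ <ξ x, v> <ξ x, w>)` is bounded:
`|B(v, w)| ≤ D |v| |w| J(1)` (positivity: `|J f| ≤ sup |f| J(1)`).  So there is a bounded operator
`A` with `inner (A v) w = B v w` (Mathlib: `InnerProductSpace.continuousLinearMapOfBilin` or
`LinearMap.mkContinuous₂` and `toDual`).  COMPACT: given `ε > 0` take a finite `ε`-net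
`x_1..x_r` of the range of `ξ` and a partition `Λ = ⊔ P_i` with `|ξ x - ξ x_i| < ε` on `P_i`; the
finite rank operator `A_ε v = ∑ J(1_(P_i)) <ξ x_i, v> ξ x_i` satisfies `|A - A_ε| ≤ 2 √D ε J(1)`;
limits of finite rank operators are compact (`isCompactOperator_of_tendsto`,
`isClosed_setOf_isCompactOperator`). -/
def OpcStmt : Prop := ∀ (H : Type) [NormedAddCommGroup H] [InnerProductSpace ℝ H]
  [CompleteSpace H] (Λ : Type) (ξ : Λ → H) (D : ℝ), (∀ x, inner ℝ (ξ x) (ξ x) ≤ D) →
  TotallyBounded (Set.range ξ) → ∀ J : (Λ → ℝ) → ℝ,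
  (∀ f g, Bdd f → Bdd g → J (f + g) = J f + J g) → (∀ (c : ℝ) f, Bdd f → J (c • f) = c * J f) →
  (∀ f, Bdd f → (∀ x, 0 ≤ f x) → 0 ≤ J f) →
  ∃ A : H →L[ℝ] H, IsCompactOperator A ∧
    ∀ v w, inner ℝ (A v) w = J (fun x => inner ℝ (ξ x) v * inner ℝ (ξ x) w)

/-- **FAM** (uses: GNS, OPC).  Finite dimensional equivariant maps separate the points at positive
distance.

PROOF.  `H, ξ, π` from GNS; `|ξ x - ξ y|² = 2 (D - k x y)`, so the range of `ξ` is totally bounded.
`A` from OPC.  `A` is symmetric, `inner (A v) v = J(<ξ x, v>²) ≥ 0`, and `A` commutes with `π g`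
(invariance of `J` and of the inner product: `inner (A (π g v)) (π g w) = inner (A v) w`).  `A` is
injective: if `A v = 0` and `<ξ x₀, v> = c ≠ 0`, then on
`B = {x | |ξ x - ξ x₀| < |c|/(2|v|)}` we have `<ξ x, v>² ≥ c²/4`, so `J(1_B) = 0`; but finitely many
translates of `B` cover `Λ` (total boundedness of `Λ` for the half radius and transitivity), so
`J(1) = 0`, contradiction; so `<ξ x, v> = 0` for all `x`, `v = 0`.
Spectral theorem for compact symmetric operators (`Mathlib/Analysis/InnerProductSpace/Spectrum`,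
`ContinuousLinearMap.orthogonalComplement_iSup_eigenspaces_eq_bot`, `finite_dimensional_eigenspace`):
`ξ x - ξ y ≠ 0` is not orthogonal to all eigenspaces; the eigenspace `W` for an eigenvalue `μ` with
`P_W (ξ x - ξ y) ≠ 0` has `μ ≠ 0` (injectivity), is finite dimensional and `π`-invariant (`A`
commutes with `π g`).  `w x = P_W (ξ x)` (orthogonal projection) is equivariant for `ρ g = π g`
restricted to `W` (the projection commutes with `π g` since `W` is invariant under `π g` and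
`π g⁻¹`), and `w x ≠ w y`. -/
def FamStmt : Prop := ∀ (G : Type u) [Group G] (Λ : Type) [MulAction G Λ],
  MulAction.IsPretransitive G Λ → ∀ (k : Λ → Λ → ℝ) (D : ℝ),
  (∀ x y, k x y = k y x) → (∀ (g : G) (x y : Λ), k (g • x) (g • y) = k x y) →
  (∀ (s : Finset Λ) (c : Λ → ℝ), 0 ≤ ∑ i ∈ s, ∑ j ∈ s, c i * c j * k i j) →
  (∀ x, k x x = D) → (∀ ε : ℝ, 0 < ε → ∃ F : Finset Λ, ∀ x, ∃ f ∈ F, D - k x f < ε) →
  ∀ J : (Λ → ℝ) → ℝ,
  (∀ f g, Bdd f → Bdd g → J (f + g) = J f + J g) → (∀ (c : ℝ) f, Bdd f → J (c • f) = c * J f) →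
  (∀ f, Bdd f → (∀ x, 0 ≤ f x) → 0 ≤ J f) → J (fun _ => 1) = 1 →
  (∀ (g : G) f, Bdd f → J (fun x => f (g • x)) = J f) →
  ∀ x y : Λ, k x y ≠ D →
  ∃ (W : Type) (_ : AddCommGroup W) (_ : Module ℝ W) (ρ : G →* Module.End ℝ W) (w : Λ → W),
    FiniteDimensional ℝ W ∧ (∀ (g : G) (x : Λ), w (g • x) = ρ g (w x)) ∧ w x ≠ w y

/-- **SEP** (uses: DNS, STB, KRA, PSD, FAM).  Separation of points by normal subgroups of finite
index.

PROOF.  `Λ` = the orbit of `z` as a subtype of `ℤ`, `L` acts transitively; `k` = restriction of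
`kk α I`, `D = DD α I z`.  `Λ` is infinite: NS with `K = N = ⊤` gives a point of `Λ` with infinite
orbit; so `m(Λ) > 0` (DNS) and `J f = I (f extended by 0) / m(Λ)` is an invariant mean on `Λ`
(`IsMean.perm`).  FAM: `W, ρ, w` with `w z₁ ≠ w z₂`.  The span of `w(Λ)` is finite dimensional, so
it is the span of `w(F)` for a finite `F ⊆ Λ`.  STB (`K = ⊤`): a f.g. infinite `K` fixing the
points of `F`.  For `g ∈ K`, `f ∈ F`: `ρ g (w f) = w (g • f) = w f`; so `ρ g` is the identity on the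
span of `w(Λ)` and `w (g • x) = w x` for all `x ∈ Λ`, `g ∈ K`.  NS (`N = ⊤`): a point `y ∈ Λ` with
infinite `K`-orbit; the fibre of `w` over `w y` contains it and has positive mass (DNS).  `L` permutes
the fibres transitively (`w (g • x) = ρ g (w x)`, `ρ g` injective), the fibres have equal mass, so
there are finitely many: `w(Λ)` is finite.  `N = {g | ∀ x ∈ Λ, w (g • x) = w x}` is the kernel of the
action of `L` on the finite set `w(Λ)`: normal, of finite index, and `g • z₁ = z₂`, `g ∈ N`, would give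
`w z₁ = w z₂`. -/
def SepStmt : Prop := ∀ (L : Type u) [Group L], Good L → ∀ α : L →* Equiv.Perm ℤ, BDp α →
  ∀ I : (ℤ → ℝ) → ℝ, IsMean I → ∀ z : ℤ, NS α z →
  (∀ ε : ℝ, 0 < ε → ∃ F : Finset ℤ, (∀ f ∈ F, ∃ g : L, α g z = f) ∧
    ∀ g : L, ∃ f ∈ F, DD α I z - kk α I (α g z) f < ε) →
  ∀ z₁ z₂ : ℤ, (∃ g : L, α g z = z₁) → (∃ g : L, α g z = z₂) → kk α I z₁ z₂ ≠ DD α I z →
  ∃ N : Subgroup L, N.Normal ∧ N.FiniteIndex ∧ ∀ g ∈ N, α g z₁ ≠ z₂

/-- **TYI** (uses: LIN, DNS, KRA, EQV).  Type I: infinitely many classes is impossible (given the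
separation of points).

PROOF.  `Lam` = orbit of `z`, `x ~ x' :⇔ kk x x' = D` (`L`-invariant equivalence relation on `Lam`,
KRA, EQV).  The classes have equal mass (`ms_perm`, transitivity) and there are infinitely many, so
they have mass `0` (`IsMean.card_le`).
NS at every point of `Lam`: if `x = α h z`, `K` f.g. infinite, `N` of finite index, there is `g ∈ N`
such that `α g x` has infinite `K`-orbit (NS for `h⁻¹ K h` and `h⁻¹ N h` at `z`).
CLAIM: for every finite set `P` of elements `≠ 1` there is `x ∈ Lam` with `α g x ≠ x` for all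
`g ∈ P`.  We construct by induction over `P` a point `x ∈ Lam` and a normal subgroup `M` of finite
index such that `α g x ∉ M x` (`= {α n x | n ∈ M}`) for all `g ∈ P`; this property passes to
every `x' ∈ M x` (`M` normal) and to every smaller `M`.  STEP: given `(x, M)` for `P` and
`g ≠ 1`.  Let `N₁ = {h | ∀ n ∈ M, α h (α n x) ~ α n x}`: a subgroup (equivalence relation,
invariance), normalised by `M`.  Suppose `g ∈ N₁`.  If `N₁` is infinite, it has a f.g. infinite
subgroup `K` (`NLFS`); NS at `x` for `K` and `M`: `y = α n x`, `n ∈ M`, has infinite `K`-orbit,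
of mass `> 0` (DNS), but `orb α K y ⊆` class of `y`, of mass `0`: contradiction.  If `N₁` is finite:
`M` acts by conjugation on `N₁`, the stabilizer of `g` has finite index in `M`, so it is infinite
(`L` infinite, `M` of finite index), but it is contained in the centralizer of `g ≠ 1`, finite:
contradiction.  So `g ∉ N₁`: there is `x' = α n x`, `n ∈ M`, with `kk (α g x') x' ≠ D`.  The
separation hypothesis for `z₁ = x'`, `z₂ = α g x'` gives a normal `M'` of finite index with
`α g x' ∉ M' x'`.  Take `(x', M ⊓ M')`.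
END: `S` a finite symmetric generating set of `L` with `1`, `ρ` a bound for the displacements of the
elements of `S`.  For every `n` take `P` = the set of the elements `≠ 1` of `S^(2n)` and `x` from the
claim: `g ↦ α g x` is injective on `S^n`, and `|α g x - x| ≤ ρ n`; so `|S^n| ≤ 2 ρ n + 1` for all `n`:
contradiction to LIN. -/
def TyiStmt : Prop := ∀ (L : Type u) [Group L], Good L → ∀ α : L →* Equiv.Perm ℤ, BDp α →
  ∀ I : (ℤ → ℝ) → ℝ, IsMean I → ∀ z : ℤ, NS α z →
  (∀ z₁ z₂ : ℤ, (∃ g : L, α g z = z₁) → (∃ g : L, α g z = z₂) → kk α I z₁ z₂ ≠ DD α I z →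
    ∃ N : Subgroup L, N.Normal ∧ N.FiniteIndex ∧ ∀ g ∈ N, α g z₁ ≠ z₂) →
  (¬ ∃ F : Finset ℤ, ∀ g : L, ∃ f ∈ F, (∃ h : L, α h z = f) ∧ kk α I (α g z) f = DD α I z) →
  False

/-- **ORB** (uses: TBD, TYF, SEP, TYI).  The orbit theorem.  PROOF: NS with `K = N = ⊤` gives
`z ∈ II α ⊤` (the orbit of `α g z` under `⊤` is the orbit of `z`).  TBD, then TYF or (SEP and TYI). -/
def OrbStmt : Prop := ∀ (L : Type u) [Group L], Good L → ∀ α : L →* Equiv.Perm ℤ, BDp α →
  ∀ I : (ℤ → ℝ) → ℝ, IsMean I → ∀ z : ℤ, COV α I z → NS α z → False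

/-! ## C. Dynamics -/

/-- **EXI** (uses: none).  Means along a subsequence of windows.

PROOF.  `U` an ultrafilter on `ℕ` with `U ≤ atTop` (`Ultrafilter.of atTop`); for bounded `f`,
`(av f (M k))_k` is bounded (`av_abs_le`), let `I f` be its limit along `U` (`0` if `f` is not
bounded).  For finitely many bounded `f` and `ε > 0` the set of the `k` with `|av f (M k) - I f| < ε`
for all of them is in `U`, so it contains `k ≥ N`, and `M k ≥ k ≥ N`. -/
def ExiStmt : Prop := ∀ M : ℕ → ℕ, StrictMono M → ∃ I : (ℤ → ℝ) → ℝ, IsMean I ∧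
  ∀ f : ℤ → ℝ, Bdd f → ∀ q : ℝ, Tendsto (fun k => av f (M k)) atTop (𝓝 q) → I f = q

/-- **ERG** (uses: none).  Mean ergodic theorem with almost everywhere convergence along a
subsequence, for countably many sets.

PROOF.  Koopman operator `U f = f ∘ T` on `L²(μ)` (`Lp.compMeasurePreserving`), an isometry;
`ContinuousLinearMap.tendsto_birkhoffAverage_orthogonalProjection` (file
`Mathlib/Analysis/InnerProductSpace/MeanErgodic.lean`): `A_n f = (1/n) ∑_(j<n) f ∘ T^j → P f` in
`L²`, `P f` invariant.  The two-sided average `D_M f = (1/(2M+1)) ∑_(|j| ≤ M) f ∘ T^j` is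
`(A_(2M+1) f) ∘ T^(-M)`, so `|D_M f - P f|₂ = |A_(2M+1) f - P f|₂ → 0`.  For `f = ind (B i)`:
choose `φ` strictly increasing with `|D_(M₀(φ k)) 1_(B i) - P 1_(B i)|₂ ≤ 2^(-k)` for all `i ≤ k`;
then `∑_k |D.. - P ..|² < ∞` a.e. (`∑ ∫ < ∞`), so `D_(M₀(φ k)) 1_(B i) → P 1_(B i)` a.e. for every
`i` (or `TendstoInMeasure.exists_seq_tendsto_ae` and a diagonal argument).  `q` = a measurable
representative of `P 1_(B i)`.  `∫ q = μ(B i)`: the integrals of `D_M 1_B` are `μ(B)` (invariance),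
convergence in `L²` implies convergence of the integrals. -/
def ErgStmt : Prop := ∀ (X : Type v) [MeasurableSpace X] (T : Equiv.Perm X) (μ : Measure X)
  [IsProbabilityMeasure μ], MeasurePreserving (T : X → X) μ μ → Measurable (T.symm : X → X) →
  ∀ B : ℕ → Set X, (∀ i, MeasurableSet (B i)) → ∀ M₀ : ℕ → ℕ, StrictMono M₀ →
  ∃ φ : ℕ → ℕ, StrictMono φ ∧ ∀ i, ∃ q : X → ℝ, Measurable q ∧ Integrable q μ ∧
    (∀ᵐ x ∂μ, Tendsto (fun k => av (fun j => ind (B i) ((T ^ j : Equiv.Perm X) x)) (M₀ (φ k)))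
      atTop (𝓝 (q x))) ∧ ∫ x, q x ∂μ = (μ (B i)).toReal

/-- **MIX** (uses: none).  The sets `IX p K`, `FX X K`, `WX p K n` are measurable if clopen sets are;
`WX p K n` is clopen for f.g. `K`, and some subgroup of finite index of `K` is trivial on it.

PROOF.  Let `K` be f.g., `S` a finite symmetric generating set of `K` with `1`.  `x ∈ WX p K n` iff
the sets `S^i · 0` (orbit of `0` in the action `alp p x`) satisfy: `|S^n · 0| ≤ n` (if the orbit has
more than `n` points, the sets `S^i · 0` increase strictly until they have more than `n` points, so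
`|S^n · 0| ≥ n + 1`; `S^n · 0` is `{p.n g x | g ∈ S^n}`, so this is a condition on finitely many
continuous functions `p.n g : X → ℤ`: clopen.  `IX p K` is the complement of the union of the
`WX p K n`; `FX X K` is the intersection over the countable (or finite generating) set of the
clopen sets `{x | p.n g x = 0}`.  FINITE INDEX: `WX p K n` is `K`-invariant and every `K`-orbit in it
has at most `n` points, so every `x` in it has a stabilizer in `K` of index `≤ n`; a f.g. group has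
finitely many subgroups of index `≤ n` (homomorphisms to `Equiv.Perm (Fin n)`); their intersection
`N` has finite index in `K` and fixes all points of `WX p K n`.  (Alternative for the last step: the
intersection of the kernels of the finitely many homomorphisms `K → Equiv.Perm (Fin n)`; if `g` is in
it and `|K x| = l ≤ n`, the action on `K x` extended by the identity is such a homomorphism.) -/
def MixStmt : Prop := ∀ (X : Type v) [TopologicalSpace X] [CompactSpace X] (T : X ≃ₜ X)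
  (L : Type u) [Group L] [MulAction L X] (p : Piece T L) (K : Subgroup L), K.FG →
  (∀ n : ℕ, IsClopen (WX p K n)) ∧ (IX p K)ᶜ = ⋃ n : ℕ, WX p K n ∧
  (IsClopen (FX X K)) ∧
  ∀ n : ℕ, ∃ N : Subgroup L, N ≤ K ∧ N.relIndex K ≠ 0 ∧ ∀ g ∈ N, ∀ x ∈ WX p K n, g • x = x

/-- **MPL** (uses: none).  `L` preserves every `T`-invariant measure.

PROOF.  `g • x = T^(p.n g x) x`; `p.n g` takes finitely many values (compactness), the sets
`{x | p.n g x = i}` are clopen.  For measurable `B`:
`μ(g⁻¹ B) = ∑_i μ({n_g = i} ∩ T^(-i) B) = ∑_i μ(T^i {n_g = i} ∩ B)`, and the sets `T^i {n_g = i}` are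
a partition of `X` (`x ↦ g • x` is a bijection). -/
def MplStmt : Prop := ∀ (X : Type v) [TopologicalSpace X] [CompactSpace X] [MeasurableSpace X]
  (T : X ≃ₜ X) (L : Type u) [Group L] [MulAction L X] (_p : Piece T L) (μ : Measure X)
  [IsFiniteMeasure μ], (∀ s : Set X, IsClopen s → MeasurableSet s) →
  MeasurePreserving (T : X → X) μ μ → Measurable (T.symm : X → X) →
  ∀ g : L, MeasurePreserving (fun x : X => g • x) μ μ

/-- **CAE** (uses: EXI, ERG, MIX).  Almost every point satisfies COV.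

PROOF.  `L` is countable; enumerate the f.g. subgroups `K_0, K_1, ...` (countable set).  ERG for the
sets `IX p (K_i)` (measurable by MIX): a subsequence `M` such that for a.e. `x` and all `i` the
densities `dns T (IX p K_i) x (M k)` converge.  Let `P_i(x) = limsup_k dns T (IX p K_i) x (M k)`:
measurable, and EXACTLY invariant under `T` (`|av f(· + 1) M - av f M| ≤ 2/(2M+1)` for
`0 ≤ f ≤ 1`).  For `r ∈ ℚ` put `U_(r,i) = {x | x ∈ FX X K_i, P_i(x) > r}`, `U_r = ∪_i U_(r,i)`,
`C_(r,n) = U_r - ∪_(i<n) U_(r,i)`: measurable, decreasing to the empty set as `n → ∞`.  ERG again for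
the countable family `C_(r,n)`, along a subsequence `M'` of `M`: for a.e. `x` the densities converge,
to `q_(r,n)(x)`, `∫ q_(r,n) = μ(C_(r,n)) → 0`; `q_(r,n)(x)` is decreasing in `n`, so
`q_(r,n)(x) → 0` for a.e. `x` and all `r`.  Fix such an `x` (also with convergence of all
`dns T (IX p K_i) x (M' k)`); `I` from EXI for `M'`, `α = alp p x`.  By `mem_II_iff`
`m(II α K_i) = P_i(x)`, `m{j | T^j x ∈ C_(r,n)} = q_(r,n)(x)`.
COV at `z = 0`: `ε, η > 0`, `D = DD α I 0`, choose a rational `r` with `D - ε < r < D`.  CLAIM: if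
`j = α g 0` then `T^j x ∈ U_r`: there is `K` f.g. fixing `0` with `m(II α K) > r` (definition of
`sSup`); `g K g⁻¹ = K_i` fixes `j`, `m(II α K_i) = m(α g '' II α K) > r` (`ms_perm`, `alp_bdp`); so
`T^j x ∈ FX X K_i` (`mem_Fx_iff`) and `P_i(T^j x) = P_i(x) = m(II α K_i) > r`.  Choose `n` with
`q_(r,n)(x) ≤ η`, `F = {K_i | i < n, P_i(x) > r}`.  For `K ∈ F`: `m(II α K) = P_i(x) > r > D - ε`.
If `j` is in the orbit of `0` and in no `Fx α K`, `K ∈ F`, then `T^j x ∈ C_(r,n)`: `T^j x ∈ U_r`, and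
`T^j x ∈ U_(r,i)`, `i < n`, would give `P_i(x) = P_i(T^j x) > r`, `K_i ∈ F`, `j ∈ Fx α K_i`.  So the
mass is `≤ q_(r,n)(x) ≤ η`. -/
def CaeStmt : Prop := ∀ (X : Type v) [TopologicalSpace X] [CompactSpace X] [MeasurableSpace X]
  (T : X ≃ₜ X) (L : Type u) [Group L] [MulAction L X] (p : Piece T L) (μ : Measure X)
  [IsProbabilityMeasure μ], Group.FG L → (∀ s : Set X, IsClopen s → MeasurableSet s) →
  MeasurePreserving (T : X → X) μ μ → Measurable (T.symm : X → X) →
  ∀ᵐ x ∂μ, ∃ I : (ℤ → ℝ) → ℝ, IsMean I ∧ COV (alp p x) I 0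

/-- **CMB** (uses: none).  Combination of small elements.

PROOF.  `b_0 = a_0`; given `b = b_(i-1) ∈ N`, `b ≠ 1`, choose `g ∈ N` such that
`b' = [g⁻¹ a_i g, b] ≠ 1` (`cm (g⁻¹ * a i * g) b`): for a bad `g` the element `g⁻¹ a_i g` lies in the
finite set `C(b)`, and the `g` with `g⁻¹ a_i g = c` are contained in a coset of `C(a_i)`, finite; `N` is
infinite.  `supp [u, b] ⊆ supp u ∪ b (supp u)` and `⊆ supp b ∪ u (supp b)`; for `E` invariant
under `N` and `μ` invariant: `μ(supp [u, b] ∩ E) ≤ 2 μ(supp u ∩ E)` and `≤ 2 μ(supp b ∩ E)`;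
`μ(supp (g⁻¹ a g) ∩ E) = μ(supp a ∩ E)`.  After the step `i` the set `E_j`, `j ≤ i`, has
`μ(supp b_i ∩ E_j) ≤ 2^(i-j+1) δ`. -/
def CmbStmt : Prop := ∀ (L : Type u) [Group L], Infinite L → FCen L → ∀ (X : Type v)
  [MeasurableSpace X] [MulAction L X] (μ : Measure X),
  (∀ g : L, MeasurePreserving (fun x : X => g • x) μ μ) →
  (∀ g : L, MeasurableSet {x : X | g • x ≠ x}) → ∀ N : Subgroup L, N.FiniteIndex →
  ∀ (n : ℕ) (a : ℕ → L) (E : ℕ → Set X), (∀ i, MeasurableSet (E i)) →
  (∀ i, ∀ g ∈ N, ∀ x : X, g • x ∈ E i ↔ x ∈ E i) → (∀ i ≤ n, a i ∈ N ∧ a i ≠ 1) →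
  ∀ δ : ENNReal, (∀ i ≤ n, μ ({x : X | a i • x ≠ x} ∩ E i) ≤ δ) →
  ∃ b ∈ N, b ≠ 1 ∧ ∀ i ≤ n, μ ({x : X | b • x ≠ x} ∩ E i) ≤ 2 ^ (n + 1) * δ

/-- **THA** (uses: ORB, MIX, MPL, CAE, CMB).  THEOREM A: every `T`-invariant probability gives small
mass to the support of some non-trivial element of a good group.

PROOF.  By CAE and ORB (with `alp_bdp`), for a.e. `x` the property `NS (alp p x) 0` fails: there are a
f.g. infinite `K` and `N` of finite index such that for all `g ∈ N` the `K`-orbit of `alp p x g 0` is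
finite, i.e. `g • x ∉ IX p K` (`smul_mem_IX_iff`).  `E(K, N) = {x | ∀ g ∈ N, g • x ∉ IX p K}`:
measurable (`L` is countable, MIX, MPL), invariant under `N`, disjoint from `IX p K`.  The set of
pairs `(K, N)` is countable (f.g. subgroups of a countable group; subgroups of finite index of a f.g.
group are f.g.).  So there are finitely many pairs `(K_i, N_i)`, `i ≤ n`, with
`μ(X - ∪ E(K_i, N_i)) < s/2`.  `N = ∩ N_i`, finite index.  For `l ∈ ℕ`: MIX gives `N'_i ≤ K_i` of
finite index in `K_i` fixing `WX p K_i l` pointwise; `N'_i ⊓ N` is infinite (`K_i` is infinite), let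
`a_i ≠ 1` be in it.  `supp a_i ∩ E_i ⊆ E_i - WX p K_i l`, and these sets decrease (as `l → ∞`) to
`E_i ∩ IX p K_i = ∅`; so for `l` large `μ(supp a_i ∩ E_i) ≤ δ` for all `i ≤ n`, where
`(n + 1) 2^(n+1) δ < s/2`.  CMB: `b ≠ 1` with
`μ(supp b) ≤ μ(X - ∪ E_i) + ∑ μ(supp b ∩ E_i) < s`. -/
def ThaStmt : Prop := ∀ (X : Type v) [TopologicalSpace X] [CompactSpace X] [MeasurableSpace X]
  (T : X ≃ₜ X) (L : Type u) [Group L] [MulAction L X] (_p : Piece T L) (μ : Measure X)
  [IsProbabilityMeasure μ], Good L → (∀ s : Set X, IsClopen s → MeasurableSet s) →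
  MeasurePreserving (T : X → X) μ μ → Measurable (T.symm : X → X) →
  ∀ s : ENNReal, 0 < s → ∃ a : L, a ≠ 1 ∧ μ {x : X | a • x ≠ x} < s

/-! ## D. From finitely additive to invariant measures -/

/-- **EXT** (uses: none).  A finitely additive function on the clopen sets of a compact space extends
to a measure on the sigma-algebra generated by them.

PROOF.  The clopen sets are a ring of sets; a clopen set which is the disjoint union of countably many
clopen sets is the union of finitely many of them (compactness), so the content is sigma-additive.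
Caratheodory: `MeasureTheory.AddContent.measure`, `AddContent.measure_eq`
(`Mathlib/MeasureTheory/OuterMeasure/OfAddContent.lean`). -/
def ExtStmt : Prop := ∀ (X : Type v) [TopologicalSpace X] [CompactSpace X] (m : Set X → ℝ),
  (∀ A, IsClopen A → 0 ≤ m A) →
  (∀ A B, IsClopen A → IsClopen B → Disjoint A B → m (A ∪ B) = m A + m B) →
  ∃ μ : @Measure X (MeasurableSpace.generateFrom {s : Set X | IsClopen s}),
    ∀ A : Set X, IsClopen A → μ A = ENNReal.ofReal (m A)

/-- **RES** (uses: MIX).  Restriction to the infinite orbits.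

PROOF.  Let `a ≠ 1`, `n ∈ ℕ`.  MIX for `K = ⊤` (f.g.): `N` of finite index fixing `WX p ⊤ n`
pointwise; replace `N` by its normal core (finite index): normal, infinite (`L` infinite), fixes
`WX p ⊤ n`.  Choose `v ∈ N`, `v ≠ 1`, and `g` with `b = [g⁻¹ a g, v] ≠ 1` (as in CMB: centralizers
are finite, `L` is infinite).  `b ∈ N`.  So `δ ≤ ν(supp b) = ν(supp b - W)`, `W = WX p ⊤ n`, which is
`L`-invariant; `supp b ⊆ supp u ∪ v (supp u)`, `u = g⁻¹ a g`, so
`δ ≤ 2 ν(supp u - W) = 2 ν(supp a - W)` (`ν` and `W` are invariant).  The sets `supp a - WX p ⊤ n`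
decrease to `supp a ∩ IX p ⊤`. -/
def ResStmt : Prop := ∀ (X : Type v) [TopologicalSpace X] [CompactSpace X] [MeasurableSpace X]
  (T : X ≃ₜ X) (L : Type u) [Group L] [MulAction L X] (p : Piece T L) (ν : Measure X)
  [IsFiniteMeasure ν], Infinite L → Group.FG L → FCen L →
  (∀ s : Set X, IsClopen s → MeasurableSet s) →
  (∀ g : L, MeasurePreserving (fun x : X => g • x) ν ν) →
  ∀ δ : ENNReal, (∀ a : L, a ≠ 1 → δ ≤ ν {x : X | a • x ≠ x}) →
  ∀ a : L, a ≠ 1 → δ ≤ 2 * ν ({x : X | a • x ≠ x} ∩ IX p (⊤ : Subgroup L))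

/-- **MTP** (uses: none).  Mass transport along `T ^ j`.

PROOF.  `L` is countable, enumerate it: `g_0, g_1, ...`.  `A_i = {x | p.n g_i x = j,
p.n g_l x ≠ j for l < i}` (clopen), `A = ⊔ A_i = {x | T^j x ∈ L x}`.  On `A_i` `T^j x = g_i • x`.
`ν{x ∈ A | T^j x ∈ C} = ∑_i ν(A_i ∩ g_i⁻¹ C) = ∑_i ν(g_i A_i ∩ C)` (invariance), and the sets
`g_i A_i = T^j A_i` are disjoint with union `T^j A = {y | T^(-j) y ∈ L y}`. -/
def MtpStmt : Prop := ∀ (X : Type v) [TopologicalSpace X] [MeasurableSpace X]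
  (T : X ≃ₜ X) (L : Type u) [Group L] [MulAction L X] (_p : Piece T L) (ν : Measure X),
  Countable L → (∀ s : Set X, IsClopen s → MeasurableSet s) →
  (∀ g : L, MeasurePreserving (fun x : X => g • x) ν ν) →
  Measurable (T : X → X) → Measurable (T.symm : X → X) →
  ∀ (j : ℤ) (C : Set X), MeasurableSet C →
  ν {x : X | (T ^ j) x ∈ C ∧ ∃ g : L, g • x = (T ^ j) x} =
    ν {y : X | y ∈ C ∧ ∃ g : L, g • y = (T ^ (-j)) y}

/-- **GAP** (uses: none).  Number of points of an infinite orbit in a window.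

PROOF.  As in DNS: the orbit `O = orb α ⊤ 0` contains `0`, is infinite, and consecutive points of a
chain differ by at most `R` (bound for the displacements of a finite generating set, `R ≥ 1`).  If `O`
is unbounded above, every interval `(q, q + R]`, `q ≥ 0`, contains a point of `O`, so
`|O ∩ [-n, n]| ≥ n/R - 1`; the same if `O` is unbounded below. -/
def GapStmt : Prop := ∀ (L : Type u) [Group L], Group.FG L → ∀ (R : ℕ) (S : Finset L), 1 ≤ R →
  Subgroup.closure (S : Set L) = ⊤ → ∀ α : L →* Equiv.Perm ℤ,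
  (∀ s ∈ S, ∀ j : ℤ, |α s j - j| ≤ R) → (0 : ℤ) ∈ II α (⊤ : Subgroup L) → ∀ n : ℕ,
  (n : ℝ) / R - 1 ≤ ((orb α (⊤ : Subgroup L) 0 ∩ Set.Icc (-(n : ℤ)) n).ncard : ℝ)

/-- **TAV** (uses: EXT, MIX, MTP, GAP).  A `T`-invariant measure dominating an `L`-invariant one on the
infinite orbits.

PROOF.  `𝓜` = sigma-algebra generated by the clopen sets (`T` and `T⁻¹` are measurable).
`J = IX p ⊤` (measurable, `L`-invariant), `S` a finite generating set of `L`, `R ≥ 1` a bound for the
displacements of the elements of `S` (all `x`: compactness).  For clopen `A` and `n ∈ ℕ`: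
`∑_(|j| ≤ n) ν{x ∈ J | T^j x ∈ A} ≥ ∑_(|j| ≤ n) ν{x | T^j x ∈ A ∩ J, T^j x ∈ L x}`
(if `T^j x ∈ J ∩ L x` then `x ∈ J`) `= ∑_(|j| ≤ n) ν{y ∈ A ∩ J | T^(-j) y ∈ L y}` (MTP)
`= ∫_(A ∩ J) |{|j| ≤ n | T^(-j) y ∈ L y}| dν(y) ≥ (n/R - 1) ν(A ∩ J)` (GAP for `alp p y`, and
aperiodicity: `T^(-j) y ∈ L y` iff `-j ∈ orb (alp p y) ⊤ 0`).  Let
`m_n(A) = (1/(2n+1)) ∑_(|j| ≤ n) ν{x ∈ J | T^j x ∈ A}` (real, `≤ ν(X)`), finitely additive;
`m(A) = lim` along an ultrafilter `≤ atTop`: finitely additive, `m(T⁻¹ A) = m(A)`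
(`|m_n(T⁻¹ A) - m_n(A)| ≤ 2 ν(X)/(2n+1)`), and `m(A) ≥ ν(A ∩ J)/(4 R)`.  EXT: `μ`, finite
(`μ X = m(X) ≤ ν X`), `T`-invariant (the clopen sets are a pi-system generating `𝓜`:
`ext_of_generate_finite`), `ν(A ∩ J) ≤ 4 R μ(A)`. -/
def TavStmt : Prop := ∀ (X : Type v) [TopologicalSpace X] [CompactSpace X] [M : MeasurableSpace X]
  (T : X ≃ₜ X) (L : Type u) [Group L] [MulAction L X] (p : Piece T L) (ν : Measure X)
  [IsFiniteMeasure ν], Group.FG L →
  M = MeasurableSpace.generateFrom {s : Set X | IsClopen s} →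
  (∀ g : L, MeasurePreserving (fun x : X => g • x) ν ν) →
  ∃ (μ : Measure X) (c : ENNReal), IsFiniteMeasure μ ∧ c ≠ ⊤ ∧
    MeasurePreserving (T : X → X) μ μ ∧
    ∀ A : Set X, IsClopen A → ν (A ∩ IX p (⊤ : Subgroup L)) ≤ c * μ A

/-- **INM** (uses: EXT, RES, TAV, THA).  Every `L`-invariant finitely additive probability gives small
mass to the support of some non-trivial element.

PROOF.  Suppose `m (supp a) ≥ δ > 0` for all `a ≠ 1`.  `𝓜` = sigma-algebra generated by the clopen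
sets; EXT: `ν` with `ν(A) = m(A)` for clopen `A`; `ν(X) = 1`.  `ν` is `L`-invariant: `x ↦ g • x` is
continuous with continuous inverse (`g • x = T^(p.n g x) x`, `p.n g` locally constant), so it is
measurable and `ν(g⁻¹ A) = m(g⁻¹ A) = m(A) = ν(A)` for clopen `A` (`ext_of_generate_finite`).
`supp a = {x | p.n a x ≠ 0}` is clopen.  RES: `ν(supp a ∩ IX p ⊤) ≥ δ/2`; TAV: `T`-invariant finite
`μ` with `μ(supp a) ≥ δ/(2c)` for all `a ≠ 1` (so `c ≠ 0`, `μ ≠ 0`).  Normalise `μ`: contradiction to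
THA.  (`supp` is `Pool.Agent.H67.CIP.supp`.) -/
def InmStmt : Prop := ∀ (X : Type v) [TopologicalSpace X] [CompactSpace X]
  (T : X ≃ₜ X) (L : Type u) [Group L] [MulAction L X] (_p : Piece T L), Good L →
  ∀ m : FAP X, (∀ (g : L) (S : Set X), m.m {x | g • x ∈ S} = m.m S) →
  ∀ δ : ℝ, 0 < δ → ∃ a : L, a ≠ 1 ∧ m.m (supp a) < δ

/-- **FIN** (uses: FOE, RDL, INM).  The main theorem.

PROOF.  Suppose `G` has neither.  `NLFS G` (a subgroup all of whose f.g. subgroups are finite is
`LocFin`).  RDL: `L` (with its action `i` on `X`, `Piece T L`), `Good L`, `Fol L`.  FOE: Foelner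
sequence of `L` (`L` f.g., so countable).  `fc L = ⊥`: a non-trivial element has a finite centralizer
and `L` is infinite.  INM with `δ = 1/3` gives the hypothesis `hinv` of
`Pool.Agent.H22.CIG.Piece.main` (file `Pool/Agent/Helper22_CIG/FullMain.lean`), whose conclusion
`CI L ∨ ∃ infinite LocFin subgroup of L` contradicts `Good L` (`CI L`: `A`, `B` infinite commuting,
`b ∈ B`, `b ≠ 1`, `A ⊆ C(b)` finite). -/
def FinStmt : Prop := ∀ (X : Type v) [TopologicalSpace X] [CompactSpace X] [Nonempty X]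
  (T : X ≃ₜ X), (∀ x : X, Dense (Set.range fun i : ℤ => (T ^ i) x)) →
  ∀ (G : Type u) [Group G] [MulAction G X] [FaithfulSMul G X] (_p : Piece T G),
  Infinite G → Fol G → CI G ∨ ∃ K : Subgroup G, LocFin K ∧ (K : Set G).Infinite

end Pool.Agent.FGT
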